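import Mathlib

/-!
Construction of the coefficients: auxiliary sequences by the Chinese remainder theorem.
-/

set_option autoImplicit false

namespace Pool.Agent.Y887.TD

open Finset

/-- the Chinese remainder theorem for prime powers, with large solutions -/
theorem crt_pow (S : Finset ℕ) (hS : ∀ p ∈ S, p.Prime) (N : ℕ) (a : ℕ → ℤ) (L : ℕ) :
    ∃ P : ℕ, L ≤ P ∧ ∀ p ∈ S, (p : ℤ) ^ N ∣ (P : ℤ) - a p := by
  classical
  have hne : ∀ p ∈ S, p ^ N ≠ 0 := fun p hp => pow_ne_zero _ (hS p hp).ne_zero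
  obtain ⟨k, hk⟩ := Nat.chineseRemainderOfFinset (fun p => (a p % ((p : ℤ) ^ N)).toNat)
    (fun p => p ^ N) S hne (by
      intro p hp q hq hpq
      exact Nat.Coprime.pow _ _ ((Nat.coprime_primes (hS p hp) (hS q hq)).2 hpq))
  refine ⟨k + L * ∏ p ∈ S, p ^ N, ?_, fun p hp => ?_⟩
  · have : 1 ≤ ∏ p ∈ S, p ^ N := Nat.pos_of_ne_zero (prod_ne_zero_iff.2 hne)
    nlinarith
  · have h1 : k ≡ (a p % ((p : ℤ) ^ N)).toNat [MOD p ^ N] := hk p hp
    have h2 : ((p ^ N : ℕ) : ℤ) ∣ ((a p % ((p : ℤ) ^ N)).toNat : ℤ) - k :=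
      (Nat.modEq_iff_dvd).1 h1
    have hpos : (0 : ℤ) < (p : ℤ) ^ N := by
      have := (hS p hp).pos
      positivity
    rw [Int.toNat_of_nonneg (Int.emod_nonneg _ hpos.ne')] at h2
    have h3 : ((p ^ N : ℕ) : ℤ) ∣ ((L * ∏ p ∈ S, p ^ N : ℕ) : ℤ) := by
      exact_mod_cast (dvd_prod_of_mem (fun p => p ^ N) hp).mul_left L
    have h4 : (p : ℤ) ^ N ∣ a p - a p % (p : ℤ) ^ N := Int.dvd_self_sub_emod
    push_cast at h2 h3 ⊢
    have : (k : ℤ) + L * ∏ p ∈ S, (p : ℤ) ^ N - a p =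
        -(a p % (p : ℤ) ^ N - k) - (a p - a p % (p : ℤ) ^ N) + L * ∏ p ∈ S, (p : ℤ) ^ N := by ring
    rw [this]
    exact dvd_add (dvd_sub (dvd_neg.2 h2) h4) h3

theorem avoid_class {k p : ℕ} (hp : p.Prime) (hkp : k < p) (E : Fin k → ℤ) :
    ∃ e : ℤ, ∀ i, ¬ (p : ℤ) ∣ e - E i := by
  classical
  have : Fact p.Prime := ⟨hp⟩
  have h1 : (univ.image (fun i => ((E i : ℤ) : ZMod p))).card < (univ : Finset (ZMod p)).card := by
    rw [card_univ, ZMod.card]
    refine lt_of_le_of_lt card_image_le ?_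
    simpa using hkp
  obtain ⟨c, -, hc⟩ := exists_mem_notMem_of_card_lt_card h1
  refine ⟨(c.val : ℤ), fun i hi => hc ?_⟩
  rw [mem_image]
  refine ⟨i, mem_univ _, ?_⟩
  have h2 := (ZMod.intCast_zmod_eq_zero_iff_dvd _ p).2 hi
  push_cast at h2
  rw [ZMod.natCast_zmod_val] at h2
  exact (sub_eq_zero.1 h2).symm

theorem step {k : ℕ} (E : Fin k → ℤ) (S0 : Finset ℕ) (hS0 : ∀ p ∈ S0, p.Prime)
    (hk : ∀ p : ℕ, p.Prime → p ≤ k → p ∈ S0) (N : ℕ) (hN : 1 ≤ N) (a : ℕ → ℤ) (D : ℕ)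
    (hD : D ≠ 0) (L : ℕ) :
    ∃ F : ℕ, L ≤ F ∧ (∀ p ∈ S0, (p : ℤ) ^ N ∣ (F : ℤ) - a p) ∧
      ∀ p : ℕ, p.Prime → p ∉ S0 → p ∣ D → ∀ i, ¬ (p : ℤ) ∣ (F : ℤ) - E i := by
  classical
  have h1 : ∀ p : ℕ, ∃ e : ℤ, p.Prime → k < p → ∀ i, ¬ (p : ℤ) ∣ e - E i := by
    intro p
    by_cases hp : p.Prime ∧ k < p
    · obtain ⟨e, he⟩ := avoid_class hp.1 hp.2 E
      exact ⟨e, fun _ _ => he⟩
    · exact ⟨0, fun h2 h3 => absurd ⟨h2, h3⟩ hp⟩
  choose e he using h1
  obtain ⟨F, hF1, hF2⟩ := crt_pow (S0 ∪ D.primeFactors) (fun p hp => by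
    rcases mem_union.1 hp with h | h
    · exact hS0 p h
    · exact Nat.prime_of_mem_primeFactors h) N (fun p => if p ∈ S0 then a p else e p) L
  refine ⟨F, hF1, fun p hp => ?_, fun p hp hpS hpD i hi => ?_⟩
  · have := hF2 p (mem_union_left _ hp)
    rwa [if_pos hp] at this
  · have h2 := hF2 p (mem_union_right _ (Nat.mem_primeFactors.2 ⟨hp, hpD, hD⟩))
    rw [if_neg hpS] at h2
    have hkp : k < p := by
      by_contra h
      exact hpS (hk p hp (by omega))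
    apply he p hp hkp i
    have h3 : (p : ℤ) ∣ (F : ℤ) - e p := (dvd_pow_self _ (by omega)).trans h2
    have h4 := dvd_sub hi h3
    have : (F : ℤ) - E i - (F - e p) = e p - E i := by ring
    rwa [this] at h4

theorem exists_seq {k : ℕ} (E : Fin k → ℤ) (S0 : Finset ℕ) (hS0 : ∀ p ∈ S0, p.Prime)
    (hk : ∀ p : ℕ, p.Prime → p ≤ k → p ∈ S0) (N : ℕ) (hN : 1 ≤ N) (a : ℕ → ℕ → ℤ) (D : ℕ)
    (hD : D ≠ 0) (L : ℕ) (hL : ∀ i, E i < L) (n : ℕ) :
    ∃ F : ℕ → ℕ, (∀ j < n, L ≤ F j ∧ ∀ p ∈ S0, (p : ℤ) ^ N ∣ (F j : ℤ) - a j p) ∧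
      (∀ j < n, ∀ p : ℕ, p.Prime → p ∉ S0 → p ∣ D → ∀ i, ¬ (p : ℤ) ∣ (F j : ℤ) - E i) ∧
      (∀ j < n, ∀ j' < j, F j' < F j ∧ ∀ p : ℕ, p.Prime → p ∉ S0 → ∀ i i',
        (p : ℤ) ∣ (F j : ℤ) - E i → ¬ (p : ℤ) ∣ (F j' : ℤ) - E i') := by
  classical
  induction n with
  | zero => exact ⟨fun _ => 0, by simp, by simp, by simp⟩
  | succ n ih =>
    obtain ⟨F, h1, h2, h3⟩ := ih
    set D' : ℕ := D * ∏ j ∈ range n, ∏ i, ((F j : ℤ) - E i).natAbs with hD'
    have hD'0 : D' ≠ 0 := by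
      refine mul_ne_zero hD (prod_ne_zero_iff.2 fun j hj => prod_ne_zero_iff.2 fun i _ => ?_)
      have ha := (h1 j (mem_range.1 hj)).1
      have hb := hL i
      have : (L : ℤ) ≤ F j := by exact_mod_cast ha
      omega
    obtain ⟨G, g1, g2, g3⟩ := step E S0 hS0 hk N hN (a n) D' hD'0 (L + ∑ j ∈ range n, F j + 1)
    refine ⟨Function.update F n G, ?_, ?_, ?_⟩
    · intro j hj
      rcases Nat.lt_succ_iff_lt_or_eq.1 hj with h | h
      · rw [Function.update_of_ne h.ne]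
        exact h1 j h
      · subst h
        rw [Function.update_self]
        exact ⟨by omega, g2⟩
    · intro j hj p hp hpS hpD i
      rcases Nat.lt_succ_iff_lt_or_eq.1 hj with h | h
      · rw [Function.update_of_ne h.ne]
        exact h2 j h p hp hpS hpD i
      · subst h
        rw [Function.update_self]
        exact g3 p hp hpS (hpD.mul_right _) i
    · intro j hj j' hj'
      have hne' : j' ≠ n := by omega
      rw [Function.update_of_ne hne']
      rcases Nat.lt_succ_iff_lt_or_eq.1 hj with h | h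
      · rw [Function.update_of_ne h.ne]
        exact h3 j h j' hj'
      · subst h
        rw [Function.update_self]
        constructor
        · have h4 := single_le_sum (f := F) (s := range j) (fun _ _ => Nat.zero_le _)
            (mem_range.2 hj')
          omega
        · intro p hp hpS i i' hpi hpi'
          refine g3 p hp hpS ?_ i hpi
          have h5 : p ∣ ((F j' : ℤ) - E i').natAbs := Int.natCast_dvd.1 hpi'
          have h6 : ((F j' : ℤ) - E i').natAbs ∣ ∏ i, ((F j' : ℤ) - E i).natAbs :=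
            dvd_prod_of_mem (fun i => ((F j' : ℤ) - E i).natAbs) (mem_univ i')
          have h7 : (∏ i, ((F j' : ℤ) - E i).natAbs) ∣
              ∏ j ∈ range j, ∏ i, ((F j : ℤ) - E i).natAbs :=
            dvd_prod_of_mem (fun j => ∏ i, ((F j : ℤ) - E i).natAbs) (mem_range.2 hj')
          exact ((h5.trans h6).trans h7).mul_left _

/-- reading a valuation off a congruence -/
theorem fact_of_dvd {p n v : ℕ} {u : ℤ} (hp : p.Prime) (hn : n ≠ 0) (hu : ¬ (p : ℤ) ∣ u)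
    (h : (p : ℤ) ^ (v + 1) ∣ (n : ℤ) - (p : ℤ) ^ v * u) : n.factorization p = v := by
  have h1 : p ^ v ∣ n := by
    have h2 : (p : ℤ) ^ v ∣ (n : ℤ) - (p : ℤ) ^ v * u := (pow_dvd_pow _ (Nat.le_succ v)).trans h
    have h3 : (p : ℤ) ^ v ∣ n := by
      have := dvd_add h2 (dvd_mul_right ((p : ℤ) ^ v) u)
      rwa [sub_add_cancel] at this
    exact_mod_cast h3
  have h2 : ¬ p ^ (v + 1) ∣ n := by
    intro h3
    have h4 : (p : ℤ) ^ (v + 1) ∣ n := by exact_mod_cast h3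
    have h5 := dvd_sub h4 h
    rw [sub_sub_cancel, pow_succ] at h5
    have hpv : (p : ℤ) ^ v ≠ 0 := pow_ne_zero _ (by exact_mod_cast hp.ne_zero)
    exact hu ((mul_dvd_mul_iff_left hpv).1 h5)
  have h3 := (hp.pow_dvd_iff_le_factorization hn).1 h1
  have h4 : ¬ v + 1 ≤ n.factorization p := fun h5 =>
    h2 ((hp.pow_dvd_iff_le_factorization hn).2 h5)
  omega

/-- the number of divisors as a product over a larger set of primes -/
theorem card_divisors_prod {n : ℕ} (hn : n ≠ 0) (S : Finset ℕ) (hS : n.primeFactors ⊆ S) :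
    n.divisors.card = ∏ p ∈ S, (n.factorization p + 1) := by
  rw [Nat.card_divisors hn]
  apply prod_subset hS
  intro p _ hp
  have : n.factorization p = 0 := by
    rw [← Nat.support_factorization] at hp
    exact Finsupp.notMem_support_iff.1 hp
  rw [this, zero_add]

end Pool.Agent.Y887.TD
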