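import Mathlib
import Pool.Agent.Y887.TD.ConsA

/-!
Construction of the coefficients `x i`, `z j` with `z j - x i = 2 gcd (x i, z j)` and prescribed
two-adic interaction of the numbers of divisors of `x i / g i j` and `z j / g i j`.
-/

set_option autoImplicit false

namespace Pool.Agent.Y887.TD

open Finset

set_option maxHeartbeats 4000000 in
theorem construct {k : ℕ} {κ : Type} [Fintype κ] (s t : κ → Fin k) (Q0 : ℕ) (hQ : 3 ≤ Q0)
    (hkQ : k ≤ Q0) :
    ∃ (x z : Fin k → ℕ) (g : Fin k → Fin k → ℕ) (X Z : Fin k → ℕ),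
      (∀ i, 0 < x i) ∧ Function.Injective x ∧ Function.Injective z ∧
      (∀ i j, z j = x i + 2 * g i j) ∧ (∀ i j, 0 < g i j) ∧ (∀ i j, g i j ∣ x i) ∧
      (∀ p : ℕ, p.Prime → p ≤ Q0 → (∀ i, ¬ p ∣ x i) ∧ ∀ j, ¬ p ∣ z j) ∧
      (∀ i j, (z j / g i j) % 6 = 1) ∧ (∀ i, 1 ≤ X i) ∧ (∀ j, 1 ≤ Z j) ∧
      ∀ i j, (z j / g i j).divisors.card * X i = (x i / g i j).divisors.card * Z j *
        ∏ y : κ, (if s y = i ∧ t y = j then 2 else 1) := by
  classical
  -- the primes of the gadget
  set ℓ : κ → ℕ := fun y => Nat.nth Nat.Prime (Q0 + (Fintype.equivFin κ y : ℕ)) with hℓ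
  have hinf := Nat.infinite_setOfPred_prime
  have hℓp : ∀ y, (ℓ y).Prime := fun y => Nat.prime_nth_prime _
  have hℓinj : Function.Injective ℓ := by
    intro y y' h
    have h1 := (Nat.nth_injective hinf) h
    have h2 : (Fintype.equivFin κ y : ℕ) = Fintype.equivFin κ y' := by omega
    exact (Fintype.equivFin κ).injective (Fin.ext h2)
  have hℓQ : ∀ y, Q0 < ℓ y := by
    intro y
    have h1 : Q0 + (Fintype.equivFin κ y : ℕ) + 2 ≤ ℓ y := Nat.add_two_le_nth_prime _
    omega
  set S0 : Finset ℕ := (range (Q0 + 1)).filter Nat.Prime ∪ univ.image ℓ with hS0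
  have hS0p : ∀ p ∈ S0, p.Prime := by
    intro p hp
    rw [hS0, mem_union, mem_filter, mem_image] at hp
    rcases hp with h | ⟨y, -, rfl⟩
    · exact h.2
    · exact hℓp y
  have hsmall : ∀ p : ℕ, p.Prime → p ≤ Q0 → p ∈ S0 := by
    intro p hp hpQ
    rw [hS0, mem_union, mem_filter, mem_range]
    exact Or.inl ⟨by omega, hp⟩
  have hmemℓ : ∀ y, ℓ y ∈ S0 := fun y => by
    rw [hS0, mem_union, mem_image]
    exact Or.inr ⟨y, mem_univ _, rfl⟩
  have hS0c : ∀ p ∈ S0, p ≤ Q0 ∨ ∃ y, ℓ y = p := by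
    intro p hp
    rw [hS0, mem_union, mem_filter, mem_range, mem_image] at hp
    rcases hp with h | ⟨y, -, h⟩
    · left; omega
    · exact Or.inr ⟨y, h⟩
  -- the numbers E
  set aE : ℕ → ℕ → ℤ := fun i p => if ∃ y, ℓ y = p ∧ (s y : ℕ) = i then (p : ℤ) ^ 2 else 1 with haE
  obtain ⟨E, hE1, -, hE3⟩ := exists_seq (k := 0) (fun _ => 0) S0 hS0p
    (fun p hp h => hsmall p hp (by omega)) 4 (by norm_num) aE 1 one_ne_zero 1 (fun i => i.elim0) k
  -- the numbers F
  set aF : ℕ → ℕ → ℤ := fun j p => if p ≤ Q0 then -1 else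
    if ∃ y, ℓ y = p ∧ (t y : ℕ) = j then (p : ℤ) ^ 3 else p with haF
  set D0 : ℕ := ∏ i ∈ range k, ∏ i' ∈ range i, ((E i : ℤ) - E i').natAbs with hD0
  have hElt : ∀ i < k, ∀ i' < i, E i' < E i := fun i hi i' hi' => (hE3 i hi i' hi').1
  have hD0' : D0 ≠ 0 := by
    refine prod_ne_zero_iff.2 fun i hi => prod_ne_zero_iff.2 fun i' hi' => ?_
    have := hElt i (mem_range.1 hi) i' (mem_range.1 hi')
    omega
  have hLE : ∀ i : Fin k, ((E i : ℕ) : ℤ) < ((∑ j ∈ range k, E j + 1 : ℕ) : ℤ) := by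
    intro i
    have := single_le_sum (f := E) (s := range k) (fun _ _ => Nat.zero_le _) (mem_range.2 i.isLt)
    exact_mod_cast Nat.lt_succ_of_le this
  obtain ⟨F, hF1, hF2, hF3⟩ := exists_seq (k := k) (fun i => (E i : ℤ)) S0 hS0p
    (fun p hp h => hsmall p hp (h.trans hkQ)) 4 (by norm_num) aF D0 hD0' (∑ j ∈ range k, E j + 1)
    hLE k
  have hEF : ∀ i j : Fin k, E i < F j := by
    intro i j
    have h1 := (hF1 j j.isLt).1
    have h2 := hLE i
    have h3 : E i < ∑ j ∈ range k, E j + 1 := by exact_mod_cast h2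
    omega
  -- separation of the pairs
  have hsep : ∀ p : ℕ, p.Prime → p ∉ S0 → ∀ i j i' j' : Fin k, (p : ℤ) ∣ (F j : ℤ) - E i →
      (p : ℤ) ∣ (F j' : ℤ) - E i' → i = i' ∧ j = j' := by
    intro p hp hpS i j i' j' h1 h2
    have hj : j = j' := by
      rcases lt_trichotomy (j : ℕ) j' with h | h | h
      · exact absurd h1 ((hF3 j' j'.isLt j h).2 p hp hpS i' i h2)
      · exact Fin.ext h
      · exact absurd h2 ((hF3 j j.isLt j' h).2 p hp hpS i i' h1)
    subst hj
    refine ⟨?_, rfl⟩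
    by_contra hne
    have h3 : (p : ℤ) ∣ (E i' : ℤ) - E i := by
      have := dvd_sub h1 h2
      have e : (F j : ℤ) - E i - (F j - E i') = E i' - E i := by ring
      rwa [e] at this
    have h4 : p ∣ D0 := by
      have key : ∀ a b : Fin k, (b : ℕ) < a → (p : ℤ) ∣ (E a : ℤ) - E b → p ∣ D0 := by
        intro a b hab hd
        have h5 : p ∣ ((E a : ℤ) - E b).natAbs := Int.natCast_dvd.1 hd
        have h6 : ((E a : ℤ) - E b).natAbs ∣ ∏ i' ∈ range (a : ℕ), ((E a : ℤ) - E i').natAbs :=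
          dvd_prod_of_mem (fun i' => ((E a : ℤ) - E i').natAbs) (mem_range.2 hab)
        exact (h5.trans h6).trans (dvd_prod_of_mem
          (fun i => ∏ i' ∈ range i, ((E i : ℤ) - E i').natAbs) (mem_range.2 a.isLt))
      rcases lt_trichotomy (i : ℕ) i' with h | h | h
      · exact key i' i h h3
      · exact absurd (Fin.ext h) hne
      · exact key i i' h (by
          have := dvd_neg.2 h3
          rwa [neg_sub] at this)
    exact hF2 j j.isLt p hp hpS h4 i h1
  -- the numbers g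
  set g : Fin k → Fin k → ℕ := fun i j => (F j - E i) / 2 with hg
  have h2S : 2 ∈ S0 := hsmall 2 Nat.prime_two (by omega)
  have h3S : 3 ∈ S0 := hsmall 3 Nat.prime_three hQ
  have haE_small : ∀ i p, p ≤ Q0 → aE i p = 1 := by
    intro i p hp
    rw [haE]
    simp only
    rw [if_neg]
    rintro ⟨y, rfl, -⟩
    have := hℓQ y
    omega
  have haF_small : ∀ j p, p ≤ Q0 → aF j p = -1 := by
    intro j p hp
    rw [haF]
    simp only
    rw [if_pos hp]
  have hEsm : ∀ (i : Fin k) (p : ℕ), p.Prime → p ≤ Q0 → (p : ℤ) ^ 4 ∣ (E i : ℤ) - 1 := by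
    intro i p hp hpQ
    have := (hE1 i i.isLt).2 p (hsmall p hp hpQ)
    rwa [haE_small _ _ hpQ] at this
  have hFsm : ∀ (j : Fin k) (p : ℕ), p.Prime → p ≤ Q0 → (p : ℤ) ^ 4 ∣ (F j : ℤ) + 1 := by
    intro j p hp hpQ
    have := (hF1 j j.isLt).2 p (hsmall p hp hpQ)
    rwa [haF_small _ _ hpQ, sub_neg_eq_add] at this
  have hg2 : ∀ i j : Fin k, F j = E i + 2 * g i j := by
    intro i j
    have h1 := hEsm i 2 Nat.prime_two (by omega)
    have h2 := hFsm j 2 Nat.prime_two (by omega)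
    have h3 := hEF i j
    simp only [hg]
    norm_num at h1 h2
    omega
  have hgpos : ∀ i j : Fin k, 0 < g i j := by
    intro i j
    have h3 := hEF i j
    have h4 := hg2 i j
    omega
  have hgz : ∀ i j : Fin k, (F j : ℤ) - E i = 2 * g i j := by
    intro i j
    have h4 : (F j : ℤ) = E i + 2 * g i j := by exact_mod_cast hg2 i j
    linarith
  -- the number P
  set N2 : ℕ := 4 + ∑ i, ∑ j, g i j with hN2
  have hN2g : ∀ i j, g i j < N2 := by
    intro i j
    have h1 := single_le_sum (f := fun j => g i j) (s := univ) (fun _ _ => Nat.zero_le _) (mem_univ j)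
    have h2 := single_le_sum (f := fun i => ∑ j, g i j) (s := univ) (fun _ _ => Nat.zero_le _)
      (mem_univ i)
    omega
  set aP : ℕ → ℤ := fun p => if h : p ∉ S0 ∧ ∃ q : Fin k × Fin k, p ∣ g q.1 q.2 then
    2 * (g h.2.choose.1 h.2.choose.2 : ℤ) - E h.2.choose.1 else 0 with haP
  obtain ⟨P, hP1, hP2⟩ := crt_pow (S0 ∪ (∏ i, ∏ j, g i j).primeFactors) (fun p hp => by
      rcases mem_union.1 hp with h | h
      · exact hS0p p h
      · exact Nat.prime_of_mem_primeFactors h) N2 aP 1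
  have hprod0 : (∏ i, ∏ j, g i j) ≠ 0 :=
    prod_ne_zero_iff.2 fun i _ => prod_ne_zero_iff.2 fun j _ => (hgpos i j).ne'
  have hPS0 : ∀ p ∈ S0, (p : ℤ) ^ 4 ∣ (P : ℤ) := by
    intro p hp
    have h1 := hP2 p (mem_union_left _ hp)
    rw [haP] at h1
    simp only at h1
    rw [dif_neg (fun h => h.1 hp), sub_zero] at h1
    exact (pow_dvd_pow _ (by omega)).trans h1
  have hPg : ∀ p : ℕ, p.Prime → p ∉ S0 → ∀ i j, p ∣ g i j →
      (p : ℤ) ^ N2 ∣ ((P + E i : ℕ) : ℤ) - 2 * g i j := by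
    intro p hp hpS i j hpg
    have hmem : p ∈ (∏ i, ∏ j, g i j).primeFactors := by
      rw [Nat.mem_primeFactors]
      refine ⟨hp, ?_, hprod0⟩
      exact (hpg.trans (dvd_prod_of_mem (fun j => g i j) (mem_univ j))).trans
        (dvd_prod_of_mem (fun i => ∏ j, g i j) (mem_univ i))
    have h1 := hP2 p (mem_union_right _ hmem)
    rw [haP] at h1
    simp only at h1
    have hex : ∃ q : Fin k × Fin k, p ∣ g q.1 q.2 := ⟨(i, j), hpg⟩
    rw [dif_pos ⟨hpS, hex⟩] at h1
    have h2 : p ∣ g hex.choose.1 hex.choose.2 := hex.choose_spec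
    have hd : ∀ i j, p ∣ g i j → (p : ℤ) ∣ (F j : ℤ) - E i := by
      intro i j h
      rw [hgz]
      exact Dvd.dvd.mul_left (by exact_mod_cast h) 2
    obtain ⟨e1, e2⟩ := hsep p hp hpS _ _ _ _ (hd _ _ h2) (hd _ _ hpg)
    rw [e1, e2] at h1
    push_cast
    have : (P : ℤ) + E i - 2 * g i j = P - (2 * g i j - E i) := by ring
    rw [this]
    exact h1
  -- the final numbers
  set x : Fin k → ℕ := fun i => P + E i with hx
  set z : Fin k → ℕ := fun j => P + F j with hz
  have hxpos : ∀ i, 0 < x i := fun i => by simp only [hx]; omega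
  have hzpos : ∀ j, 0 < z j := fun i => by simp only [hz]; omega
  have hzx : ∀ i j, z j = x i + 2 * g i j := by
    intro i j
    have := hg2 i j
    simp only [hx, hz]
    omega
  have hxsm : ∀ (i : Fin k) (p : ℕ), p.Prime → p ≤ Q0 → (p : ℤ) ∣ (x i : ℤ) - 1 := by
    intro i p hp hpQ
    have h1 := (dvd_pow_self (p : ℤ) (by norm_num : 4 ≠ 0)).trans (hEsm i p hp hpQ)
    have h2 := (dvd_pow_self (p : ℤ) (by norm_num : 4 ≠ 0)).trans (hPS0 p (hsmall p hp hpQ))
    have : (x i : ℤ) - 1 = P + (E i - 1) := by simp only [hx]; push_cast; ring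
    rw [this]
    exact dvd_add h2 h1
  have hzsm : ∀ (j : Fin k) (p : ℕ), p.Prime → p ≤ Q0 → (p : ℤ) ∣ (z j : ℤ) + 1 := by
    intro i p hp hpQ
    have h1 := (dvd_pow_self (p : ℤ) (by norm_num : 4 ≠ 0)).trans (hFsm i p hp hpQ)
    have h2 := (dvd_pow_self (p : ℤ) (by norm_num : 4 ≠ 0)).trans (hPS0 p (hsmall p hp hpQ))
    have : (z i : ℤ) + 1 = P + (F i + 1) := by simp only [hz]; push_cast; ring
    rw [this]
    exact dvd_add h2 h1
  have hnot1 : ∀ (p : ℕ), p.Prime → ¬ (p : ℤ) ∣ 1 := by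
    intro p hp h
    have : p ∣ 1 := by exact_mod_cast h
    exact hp.one_lt.ne' (Nat.dvd_one.1 this)
  have hxnd : ∀ p : ℕ, p.Prime → p ≤ Q0 → ∀ i, ¬ p ∣ x i := by
    intro p hp hpQ i h
    have h1 : (p : ℤ) ∣ x i := by exact_mod_cast h
    have h2 := dvd_sub h1 (hxsm i p hp hpQ)
    rw [sub_sub_cancel] at h2
    exact hnot1 p hp h2
  have hznd : ∀ p : ℕ, p.Prime → p ≤ Q0 → ∀ j, ¬ p ∣ z j := by
    intro p hp hpQ i h
    have h1 : (p : ℤ) ∣ z i := by exact_mod_cast h
    have h2 := dvd_sub (hzsm i p hp hpQ) h1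
    rw [add_sub_cancel_left] at h2
    exact hnot1 p hp h2
  -- valuations at the primes of the gadget
  have hℓ2 : ∀ y, ¬ ((ℓ y : ℕ) : ℤ) ∣ 2 := by
    intro y h
    have h1 : ℓ y ∣ 2 := by exact_mod_cast h
    have h2 := Nat.le_of_dvd (by norm_num) h1
    have := hℓQ y
    omega
  have haEℓ : ∀ (i : Fin k) (y : κ), aE i (ℓ y) = if s y = i then ((ℓ y : ℕ) : ℤ) ^ 2 else 1 := by
    intro i y
    rw [haE]
    simp only
    by_cases h : s y = i
    · rw [if_pos h, if_pos ⟨y, rfl, by rw [h]⟩]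
    · rw [if_neg h, if_neg]
      rintro ⟨y', h1, h2⟩
      rw [hℓinj h1] at h2
      exact h (Fin.ext h2)
  have haFℓ : ∀ (j : Fin k) (y : κ), aF j (ℓ y) =
      if t y = j then ((ℓ y : ℕ) : ℤ) ^ 3 else ((ℓ y : ℕ) : ℤ) := by
    intro j y
    rw [haF]
    simp only
    rw [if_neg (by have := hℓQ y; omega)]
    by_cases h : t y = j
    · rw [if_pos h, if_pos ⟨y, rfl, by rw [h]⟩]
    · rw [if_neg h, if_neg]
      rintro ⟨y', h1, h2⟩
      rw [hℓinj h1] at h2
      exact h (Fin.ext h2)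
  have hxℓ : ∀ (i : Fin k) (y : κ), ((ℓ y : ℕ) : ℤ) ^ 4 ∣ (x i : ℤ) -
      if s y = i then ((ℓ y : ℕ) : ℤ) ^ 2 else 1 := by
    intro i y
    have h1 := (hE1 i i.isLt).2 (ℓ y) (hmemℓ y)
    rw [haEℓ] at h1
    have h2 := hPS0 (ℓ y) (hmemℓ y)
    have e : ∀ w : ℤ, (x i : ℤ) - w = P + (E i - w) := by
      intro w; simp only [hx]; push_cast; ring
    rw [e]
    exact dvd_add h2 h1
  have hzℓ : ∀ (j : Fin k) (y : κ), ((ℓ y : ℕ) : ℤ) ^ 4 ∣ (z j : ℤ) -
      if t y = j then ((ℓ y : ℕ) : ℤ) ^ 3 else ((ℓ y : ℕ) : ℤ) := by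
    intro j y
    have h1 := (hF1 j j.isLt).2 (ℓ y) (hmemℓ y)
    rw [haFℓ] at h1
    have h2 := hPS0 (ℓ y) (hmemℓ y)
    have e : ∀ w : ℤ, (z j : ℤ) - w = P + (F j - w) := by
      intro w; simp only [hz]; push_cast; ring
    rw [e]
    exact dvd_add h2 h1
  have hvx : ∀ (i : Fin k) (y : κ), (x i).factorization (ℓ y) = if s y = i then 2 else 0 := by
    intro i y
    have h1 := hxℓ i y
    split_ifs at h1 ⊢ with h
    · refine fact_of_dvd (u := 1) (hℓp y) (hxpos i).ne' (hnot1 _ (hℓp y)) ?_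
      rw [mul_one]
      exact (pow_dvd_pow _ (by norm_num)).trans h1
    · refine fact_of_dvd (u := 1) (hℓp y) (hxpos i).ne' (hnot1 _ (hℓp y)) ?_
      rw [mul_one, pow_zero]
      exact (pow_dvd_pow _ (by norm_num)).trans h1
  have hvz : ∀ (j : Fin k) (y : κ), (z j).factorization (ℓ y) = if t y = j then 3 else 1 := by
    intro j y
    have h1 := hzℓ j y
    split_ifs at h1 ⊢ with h
    · refine fact_of_dvd (u := 1) (hℓp y) (hzpos j).ne' (hnot1 _ (hℓp y)) ?_
      rw [mul_one]
      exact h1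
    · refine fact_of_dvd (u := 1) (hℓp y) (hzpos j).ne' (hnot1 _ (hℓp y)) ?_
      rw [mul_one, pow_one]
      exact (pow_dvd_pow _ (by norm_num)).trans h1
  have hvg2 : ∀ (i j : Fin k) (y : κ), (2 * g i j).factorization (ℓ y) =
      (g i j).factorization (ℓ y) := by
    intro i j y
    rw [Nat.factorization_mul (by norm_num) (hgpos i j).ne', Finsupp.add_apply,
      Nat.factorization_eq_zero_of_not_dvd (n := 2) (p := ℓ y), zero_add]
    intro h
    exact hℓ2 y (by exact_mod_cast h)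
  have hvg : ∀ (i j : Fin k) (y : κ), (g i j).factorization (ℓ y) =
      if s y = i then (if t y = j then 2 else 1) else 0 := by
    intro i j y
    rw [← hvg2 i j y]
    have h1 := hxℓ i y
    have h2 := hzℓ j y
    have h3 := dvd_sub h2 h1
    have e : ∀ a b : ℤ, (z j : ℤ) - a - (x i - b) = ((2 * g i j : ℕ) : ℤ) - (a - b) := by
      intro a b
      have := hzx i j
      rw [this]; push_cast; ring
    rw [e] at h3
    have hpz : Prime ((ℓ y : ℕ) : ℤ) := Nat.prime_iff_prime_int.1 (hℓp y)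
    have hne : 2 * g i j ≠ 0 := mul_ne_zero (by norm_num) (hgpos i j).ne'
    have hdl : ∀ w : ℤ, (((ℓ y : ℕ) : ℤ) ∣ w * ((ℓ y : ℕ) : ℤ) - 1 → False) := by
      intro w hw
      have := dvd_sub (Dvd.intro_left w rfl : ((ℓ y : ℕ) : ℤ) ∣ w * ((ℓ y : ℕ) : ℤ)) hw
      rw [sub_sub_cancel] at this
      exact hnot1 _ (hℓp y) this
    have hdl' : ∀ w : ℤ, (((ℓ y : ℕ) : ℤ) ∣ 1 - w * ((ℓ y : ℕ) : ℤ) → False) := by
      intro w hw
      apply hdl w
      have := dvd_neg.2 hw
      rwa [neg_sub] at this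
    by_cases hs : s y = i
    · by_cases ht : t y = j
      · rw [if_pos hs, if_pos ht]
        rw [if_pos hs, if_pos ht] at h3
        refine fact_of_dvd (u := 1 * ((ℓ y : ℕ) : ℤ) - 1) (hℓp y) hne (hdl 1) ?_
        refine (pow_dvd_pow _ (by norm_num)).trans (h3.trans (dvd_of_eq ?_))
        ring
      · rw [if_pos hs, if_neg ht]
        rw [if_pos hs, if_neg ht] at h3
        refine fact_of_dvd (u := 1 - 1 * ((ℓ y : ℕ) : ℤ)) (hℓp y) hne (hdl' 1) ?_
        refine (pow_dvd_pow _ (by norm_num)).trans (h3.trans (dvd_of_eq ?_))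
        ring
    · rw [if_neg hs]
      rw [if_neg hs] at h3
      split_ifs at h3 with ht
      · refine fact_of_dvd (u := ((ℓ y : ℕ) : ℤ) ^ 2 * ((ℓ y : ℕ) : ℤ) - 1) (hℓp y) hne (hdl _) ?_
        refine (pow_dvd_pow _ (by norm_num)).trans (h3.trans (dvd_of_eq ?_))
        ring
      · refine fact_of_dvd (u := 1 * ((ℓ y : ℕ) : ℤ) - 1) (hℓp y) hne (hdl 1) ?_
        refine (pow_dvd_pow _ (by norm_num)).trans (h3.trans (dvd_of_eq ?_))
        ring
  -- valuations at small primes
  have hgodd : ∀ i j, ¬ 2 ∣ g i j := by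
    intro i j h
    have h1 := hEsm i 2 Nat.prime_two (by omega)
    have h2 := hFsm j 2 Nat.prime_two (by omega)
    have h3 := hg2 i j
    norm_num at h1 h2
    omega
  have hgsm : ∀ p : ℕ, p.Prime → p ≤ Q0 → ∀ i j, ¬ p ∣ g i j := by
    intro p hp hpQ i j h
    rcases Nat.eq_or_lt_of_le hp.two_le with h2 | h2
    · rw [← h2] at h
      exact hgodd i j h
    · have h3 : (p : ℤ) ∣ (F j : ℤ) - E i := by
        rw [hgz]
        exact Dvd.dvd.mul_left (by exact_mod_cast h) 2
      have h4 := (dvd_pow_self (p : ℤ) (by norm_num : 4 ≠ 0)).trans (hEsm i p hp hpQ)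
      have h5 := (dvd_pow_self (p : ℤ) (by norm_num : 4 ≠ 0)).trans (hFsm j p hp hpQ)
      have h6 : (p : ℤ) ∣ 2 := by
        have := dvd_sub h5 (dvd_add h3 h4)
        have e : (F j : ℤ) + 1 - (F j - E i + (E i - 1)) = 2 := by ring
        rwa [e] at this
      have h7 : p ∣ 2 := by exact_mod_cast h6
      have := Nat.le_of_dvd (by norm_num) h7
      omega
  -- valuations at the other primes
  have hother : ∀ p : ℕ, p.Prime → p ∉ S0 → ∀ i j, p ∣ g i j →
      (x i).factorization p = (g i j).factorization p ∧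
        (z j).factorization p = (g i j).factorization p := by
    intro p hp hpS i j hpg
    have hpQ : Q0 < p := by
      by_contra h
      exact hpS (hsmall p hp (by omega))
    have h1 := hPg p hp hpS i j hpg
    have hpos := hgpos i j
    set v := (g i j).factorization p with hv
    obtain ⟨u, hu⟩ : ∃ u, g i j = p ^ v * u := Nat.ordProj_dvd (g i j) p
    have hpu : ¬ p ∣ u := by
      intro h
      have h2 : p ^ (v + 1) ∣ g i j := by
        rw [hu, pow_succ]
        exact mul_dvd_mul_left _ h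
      have := (hp.pow_dvd_iff_le_factorization hpos.ne').1 h2
      omega
    have hvN : v + 1 ≤ N2 := by
      have h2 : v < g i j := Nat.factorization_lt p hpos.ne'
      have h3 := hN2g i j
      omega
    have hpz : Prime (p : ℤ) := Nat.prime_iff_prime_int.1 hp
    have hp2 : ¬ (p : ℤ) ∣ 2 := by
      intro h
      have h2 : p ∣ 2 := by exact_mod_cast h
      have := Nat.le_of_dvd (by norm_num) h2
      omega
    have hpu' : ¬ (p : ℤ) ∣ (u : ℤ) := by exact_mod_cast hpu
    constructor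
    · refine fact_of_dvd (u := 2 * (u : ℤ)) hp (hxpos i).ne' ?_ ?_
      · intro h
        rcases hpz.dvd_or_dvd h with h | h
        · exact hp2 h
        · exact hpu' h
      · refine (pow_dvd_pow _ hvN).trans (h1.trans (dvd_of_eq ?_))
        have : (g i j : ℤ) = (p : ℤ) ^ v * u := by exact_mod_cast hu
        rw [this]; ring
    · refine fact_of_dvd (u := 2 * (2 * (u : ℤ))) hp (hzpos j).ne' ?_ ?_
      · intro h
        rcases hpz.dvd_or_dvd h with h | h
        · exact hp2 h
        · rcases hpz.dvd_or_dvd h with h | h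
          · exact hp2 h
          · exact hpu' h
      · refine (pow_dvd_pow _ hvN).trans (h1.trans (dvd_of_eq ?_))
        have h3 : (g i j : ℤ) = (p : ℤ) ^ v * u := by exact_mod_cast hu
        have h4 : (z j : ℤ) = x i + 2 * g i j := by exact_mod_cast hzx i j
        have h5 : ((P + E i : ℕ) : ℤ) = x i := rfl
        rw [h4, h5, h3]; ring
  -- divisibility
  have hgx : ∀ i j, g i j ∣ x i := by
    intro i j
    rw [← Nat.factorization_prime_le_iff_dvd (hgpos i j).ne' (hxpos i).ne']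
    intro p hp
    by_cases hpg : p ∣ g i j
    · by_cases hpS : p ∈ S0
      · rcases hS0c p hpS with h | ⟨y, rfl⟩
        · exact absurd hpg (hgsm p hp h i j)
        · rw [hvg, hvx]
          split_ifs <;> omega
      · exact (hother p hp hpS i j hpg).1.ge
    · rw [Nat.factorization_eq_zero_of_not_dvd hpg]
      exact Nat.zero_le _
  have hgzd : ∀ i j, g i j ∣ z j := by
    intro i j
    rw [hzx i j]
    exact dvd_add (hgx i j) (dvd_mul_left _ _)
  -- residues modulo 6
  have hmod6 : ∀ i j, (z j / g i j) % 6 = 1 := by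
    intro i j
    obtain ⟨q, hq⟩ := hgzd i j
    rw [hq, Nat.mul_div_cancel_left _ (hgpos i j)]
    have h3z : z j % 3 = 2 := by
      have := hzsm j 3 Nat.prime_three hQ
      push_cast at this
      omega
    have h3x : x i % 3 = 1 := by
      have := hxsm i 3 Nat.prime_three hQ
      push_cast at this
      omega
    have h3g : g i j % 3 = 2 := by
      have := hzx i j
      omega
    have h2q : q % 2 = 1 := by
      by_contra h
      have h4 : 2 ∣ z j := by
        rw [hq]
        exact Dvd.dvd.mul_left (by omega) _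
      exact hznd 2 Nat.prime_two (by omega) j h4
    have h3q : q % 3 = 1 := by
      have h5 : (g i j * q) % 3 = 2 := by rw [← hq]; exact h3z
      rw [Nat.mul_mod, h3g] at h5
      have h6 : q % 3 = 0 ∨ q % 3 = 1 ∨ q % 3 = 2 := by omega
      rcases h6 with h6 | h6 | h6
      · rw [h6] at h5; omega
      · exact h6
      · rw [h6] at h5; omega
    omega
  -- the separable factors
  set 𝒯 : Finset ℕ := ((∏ i, x i) * ∏ j, z j).primeFactors \ univ.image ℓ with h𝒯
  have hbig0 : (∏ i, x i) * ∏ j, z j ≠ 0 := mul_ne_zero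
    (prod_ne_zero_iff.2 fun i _ => (hxpos i).ne') (prod_ne_zero_iff.2 fun j _ => (hzpos j).ne')
  have hdisj : Disjoint 𝒯 (univ.image ℓ) := by
    rw [h𝒯]
    exact sdiff_disjoint
  have hcov : ∀ n : ℕ, n ∣ (∏ i, x i) * ∏ j, z j → n.primeFactors ⊆ 𝒯 ∪ univ.image ℓ := by
    intro n hn p hp
    rw [mem_union, h𝒯, mem_sdiff]
    by_cases h : p ∈ univ.image ℓ
    · exact Or.inr h
    · exact Or.inl ⟨Nat.primeFactors_mono hn hbig0 hp, h⟩
  have hdiv : ∀ n : ℕ, n ∣ (∏ i, x i) * ∏ j, z j → n.divisors.card =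
      (∏ p ∈ 𝒯, (n.factorization p + 1)) * ∏ y : κ, (n.factorization (ℓ y) + 1) := by
    intro n hn
    have hn0 : n ≠ 0 := fun h => hbig0 (by rw [h] at hn; exact zero_dvd_iff.1 hn)
    rw [card_divisors_prod hn0 _ (hcov n hn), prod_union hdisj, prod_image (fun a _ b _ h => hℓinj h)]
  have hxd : ∀ i, x i ∣ (∏ i, x i) * ∏ j, z j := fun i =>
    (dvd_prod_of_mem x (mem_univ i)).mul_right _
  have hzd : ∀ j, z j ∣ (∏ i, x i) * ∏ j, z j := fun j =>
    (dvd_prod_of_mem z (mem_univ j)).mul_left _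
  refine ⟨x, z, g, fun i => (∏ p ∈ 𝒯, ((x i).factorization p + 1)) *
    ∏ y : κ, (if s y = i then 4 else 1), fun j => (∏ p ∈ 𝒯, ((z j).factorization p + 1)) *
    ∏ y : κ, (if t y = j then 4 else 2), hxpos, ?_, ?_, hzx, hgpos, hgx,
    fun p hp hpQ => ⟨hxnd p hp hpQ, hznd p hp hpQ⟩, hmod6, ?_, ?_, ?_⟩
  · intro i i' h
    simp only [hx] at h
    rcases lt_trichotomy (i : ℕ) i' with h1 | h1 | h1
    · have := hElt i' i'.isLt i h1
      omega
    · exact Fin.ext h1
    · have := hElt i i.isLt i' h1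
      omega
  · intro i i' h
    simp only [hz] at h
    rcases lt_trichotomy (i : ℕ) i' with h1 | h1 | h1
    · have := (hF3 i' i'.isLt i h1).1
      omega
    · exact Fin.ext h1
    · have := (hF3 i i.isLt i' h1).1
      omega
  · intro i
    refine Nat.mul_pos (prod_pos fun p _ => Nat.succ_pos _) (prod_pos fun y _ => ?_)
    split_ifs <;> norm_num
  · intro i
    refine Nat.mul_pos (prod_pos fun p _ => Nat.succ_pos _) (prod_pos fun y _ => ?_)
    split_ifs <;> norm_num
  · intro i j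
    rw [hdiv _ ((Nat.div_dvd_of_dvd (hgzd i j)).trans (hzd j)),
      hdiv _ ((Nat.div_dvd_of_dvd (hgx i j)).trans (hxd i)),
      Nat.factorization_div (hgzd i j), Nat.factorization_div (hgx i j)]
    simp only [Finsupp.tsub_apply]
    have h1 : ∀ p ∈ 𝒯, ((z j).factorization p - (g i j).factorization p + 1) *
        ((x i).factorization p + 1) = ((x i).factorization p - (g i j).factorization p + 1) *
        ((z j).factorization p + 1) := by
      intro p hp
      rw [h𝒯, mem_sdiff] at hp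
      have hpp := Nat.prime_of_mem_primeFactors hp.1
      by_cases hpg : p ∣ g i j
      · by_cases hpS : p ∈ S0
        · rcases hS0c p hpS with h | ⟨y, hy⟩
          · exact absurd hpg (hgsm p hpp h i j)
          · exact absurd (mem_image.2 ⟨y, mem_univ _, hy⟩) hp.2
        · obtain ⟨h2, h3⟩ := hother p hpp hpS i j hpg
          rw [h2, h3]
      · rw [Nat.factorization_eq_zero_of_not_dvd hpg]
        simp only [Nat.sub_zero]
        ring
    have h2 : ∀ y : κ, ((z j).factorization (ℓ y) - (g i j).factorization (ℓ y) + 1) *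
        (if s y = i then 4 else 1) = ((x i).factorization (ℓ y) - (g i j).factorization (ℓ y) + 1) *
        (if t y = j then 4 else 2) * (if s y = i ∧ t y = j then 2 else 1) := by
      intro y
      rw [hvx, hvz, hvg]
      by_cases hs : s y = i
      · by_cases ht : t y = j
        · rw [if_pos hs, if_pos hs, if_pos hs, if_pos ht, if_pos ht, if_pos ht, if_pos ⟨hs, ht⟩]
        · rw [if_pos hs, if_pos hs, if_pos hs, if_neg ht, if_neg ht, if_neg ht,
            if_neg (fun h => ht h.2)]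
      · by_cases ht : t y = j
        · rw [if_neg hs, if_neg hs, if_neg hs, if_pos ht, if_pos ht, if_neg (fun h => hs h.1)]
        · rw [if_neg hs, if_neg hs, if_neg hs, if_neg ht, if_neg ht, if_neg (fun h => hs h.1)]
    have h3 := prod_congr rfl h1
    have h4 := prod_congr (rfl : (univ : Finset κ) = univ) (fun y _ => h2 y)
    rw [prod_mul_distrib, prod_mul_distrib] at h3
    rw [prod_mul_distrib, prod_mul_distrib, prod_mul_distrib] at h4
    calc _ = ((∏ p ∈ 𝒯, ((z j).factorization p - (g i j).factorization p + 1)) *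
          ∏ p ∈ 𝒯, ((x i).factorization p + 1)) *
          ((∏ y : κ, ((z j).factorization (ℓ y) - (g i j).factorization (ℓ y) + 1)) *
          ∏ y : κ, (if s y = i then 4 else 1)) := by ring
      _ = _ := by
          rw [h3, h4]
          ring

end Pool.Agent.Y887.TD
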