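import Mathlib
import Pool.Agent.Y887.TD.ConsA

/-!
Linear forms `c h * n + 1` restricted to a progression on which they have prescribed prime powers.
-/

set_option autoImplicit false

namespace Pool.Agent.Y887.TD

open Finset

theorem card_div_sqfree {n : ℕ} (hn : Squarefree n) :
    n.divisors.card = 2 ^ n.primeFactors.card := by
  rw [Nat.card_divisors hn.ne_zero, prod_congr rfl (g := fun _ => 2), prod_const]
  intro p hp
  have h1 := hn.natFactorization_le_one p
  have h2 : 0 < n.factorization p := by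
    rw [Nat.pos_iff_ne_zero, ← Finsupp.mem_support_iff, Nat.support_factorization]
    exact hp
  omega

theorem card_div_form {r F e : ℕ} (hr : r.Prime) (hF : Squarefree F) (hrF : ¬ r ∣ F) :
    (r ^ e * F).divisors.card = (e + 1) * 2 ^ F.primeFactors.card := by
  have h1 : Nat.Coprime (r ^ e) F := Nat.Coprime.pow_left e ((Nat.Prime.coprime_iff_not_dvd hr).2 hrF)
  rw [Nat.Coprime.card_divisors_mul h1, card_div_sqfree hF, Nat.divisors_prime_pow hr, card_map,
    card_range]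

theorem exists_inv (c r N : ℕ) (hr : r.Prime) (hc : ¬ r ∣ c) (v : ℤ) :
    ∃ w : ℤ, (r : ℤ) ^ N ∣ c * w - v := by
  have h1 : IsCoprime (c : ℤ) ((r : ℤ) ^ N) := by
    apply IsCoprime.pow_right
    rw [Nat.isCoprime_iff_coprime]
    exact ((Nat.Prime.coprime_iff_not_dvd hr).2 hc).symm
  obtain ⟨u, w, huw⟩ := h1
  refine ⟨u * v, ?_⟩
  have : (c : ℤ) * (u * v) - v = (r : ℤ) ^ N * (-(w * v)) := by
    have : (c : ℤ) * (u * v) - v = (u * c - 1) * v := by ring
    rw [this, ← huw]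
    ring
  rw [this]
  exact dvd_mul_right _ _

/-- the restriction to a progression -/
theorem exists_forms {ι : Type} [Fintype ι] (c : ι → ℕ) (hc : ∀ h, 1 ≤ c h)
    (hinj : Function.Injective c) (e : ι → ℕ) (T : ℕ) (hcT : ∀ h, c h < T) :
    ∃ (n0 E : ℕ) (r : ι → ℕ) (A B : ι → ℕ), 1 ≤ E ∧
      (∀ h, (r h).Prime) ∧ (∀ h, T < r h) ∧ (∀ p : ℕ, p.Prime → p ≤ T → p ∣ n0 ∧ p ∣ E) ∧
      (∀ h, A h * r h ^ e h = c h * E) ∧ (∀ h, B h * r h ^ e h = c h * n0 + 1) ∧
      (∀ h, 1 ≤ A h) ∧ (∀ h, 1 ≤ B h) ∧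
      (∀ h, Nat.Coprime (A h) (B h)) ∧ (∀ p : ℕ, p.Prime → p ≤ T → ∀ h, p ∣ A h) ∧
      (∀ h, r h ∣ A h) := by
  classical
  set r : ι → ℕ := fun h => Nat.nth Nat.Prime (T + (Fintype.equivFin ι h : ℕ)) with hr
  have hrp : ∀ h, (r h).Prime := fun h => Nat.prime_nth_prime _
  have hrinj : Function.Injective r := by
    intro y y' h
    have h1 := (Nat.nth_injective Nat.infinite_setOfPred_prime) h
    have h2 : (Fintype.equivFin ι y : ℕ) = Fintype.equivFin ι y' := by omega
    exact (Fintype.equivFin ι).injective (Fin.ext h2)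
  have hrT : ∀ h, T < r h := by
    intro y
    have h1 : T + (Fintype.equivFin ι y : ℕ) + 2 ≤ r y := Nat.add_two_le_nth_prime _
    omega
  have hrc : ∀ h h', ¬ r h ∣ c h' := by
    intro h h' hd
    have h1 := Nat.le_of_dvd (hc h') hd
    have h2 := hrT h
    have h3 := hcT h'
    omega
  set N : ℕ := 1 + ∑ h, e h with hN
  have hNe : ∀ h, e h + 1 ≤ N := by
    intro h
    have := single_le_sum (f := e) (fun _ _ => Nat.zero_le _) (mem_univ h)
    omega
  choose w hw using fun h : ι => exists_inv (c h) (r h) N (hrp h) (hrc h h) ((r h : ℤ) ^ e h - 1)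
  set S : Finset ℕ := (range (T + 1)).filter Nat.Prime ∪ univ.image r with hS
  have hSp : ∀ p ∈ S, p.Prime := by
    intro p hp
    rw [hS, mem_union, mem_filter, mem_image] at hp
    rcases hp with h | ⟨y, -, rfl⟩
    · exact h.2
    · exact hrp y
  have hsmall : ∀ p : ℕ, p.Prime → p ≤ T → p ∈ S := by
    intro p hp hpT
    rw [hS, mem_union, mem_filter, mem_range]
    exact Or.inl ⟨by omega, hp⟩
  have hmemr : ∀ h, r h ∈ S := fun h => by
    rw [hS, mem_union, mem_image]
    exact Or.inr ⟨h, mem_univ _, rfl⟩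
  have hSc : ∀ p ∈ S, p ≤ T ∨ ∃ h, r h = p := by
    intro p hp
    rw [hS, mem_union, mem_filter, mem_range, mem_image] at hp
    rcases hp with h | ⟨y, -, h⟩
    · left; omega
    · exact Or.inr ⟨y, h⟩
  set a : ℕ → ℤ := fun p => if h : ∃ h, r h = p then w h.choose else 0 with ha
  obtain ⟨n0, -, hn0⟩ := crt_pow S hSp N a 0
  have har : ∀ h, a (r h) = w h := by
    intro h
    rw [ha]
    simp only
    have hex : ∃ h', r h' = r h := ⟨h, rfl⟩
    rw [dif_pos hex, hrinj hex.choose_spec]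
  have hn0r : ∀ h, (r h : ℤ) ^ N ∣ (c h * n0 + 1 : ℤ) - (r h : ℤ) ^ e h := by
    intro h
    have h1 := hn0 (r h) (hmemr h)
    rw [har] at h1
    have h2 := dvd_add (Dvd.dvd.mul_left h1 (c h : ℤ)) (hw h)
    have e1 : (c h : ℤ) * ((n0 : ℤ) - w h) + ((c h : ℤ) * w h - ((r h : ℤ) ^ e h - 1)) =
        (c h * n0 + 1 : ℤ) - (r h : ℤ) ^ e h := by ring
    rwa [e1] at h2
  have hn0s : ∀ p : ℕ, p.Prime → p ≤ T → p ∣ n0 := by
    intro p hp hpT
    have h1 := hn0 p (hsmall p hp hpT)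
    rw [ha] at h1
    simp only at h1
    rw [dif_neg (by
      rintro ⟨h, hh⟩
      have := hrT h
      omega), sub_zero] at h1
    have h2 : (p : ℤ) ∣ n0 := (dvd_pow_self _ (by omega)).trans h1
    exact_mod_cast h2
  set E : ℕ := ∏ p ∈ S, p ^ N with hE
  have hE1 : 1 ≤ E := Nat.pos_of_ne_zero (prod_ne_zero_iff.2 fun p hp =>
    pow_ne_zero _ (hSp p hp).ne_zero)
  have hpE : ∀ p ∈ S, p ^ N ∣ E := fun p hp => dvd_prod_of_mem (fun p => p ^ N) hp
  have hBdvd : ∀ h, r h ^ e h ∣ c h * n0 + 1 := by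
    intro h
    have h1 : (r h : ℤ) ^ e h ∣ (c h * n0 + 1 : ℤ) - (r h : ℤ) ^ e h :=
      (pow_dvd_pow _ (by have := hNe h; omega)).trans (hn0r h)
    have h2 := dvd_add h1 (dvd_refl ((r h : ℤ) ^ e h))
    rw [sub_add_cancel] at h2
    exact_mod_cast h2
  have hAdvd : ∀ h, r h ^ e h ∣ c h * E := by
    intro h
    exact Dvd.dvd.mul_left ((pow_dvd_pow _ (by have := hNe h; omega)).trans
      (hpE (r h) (hmemr h))) _
  choose B hB using hBdvd
  choose A hA using hAdvd
  have hrpos : ∀ h, 0 < r h ^ e h := fun h => pow_pos (hrp h).pos _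
  have hA1 : ∀ h, 1 ≤ A h := by
    intro h
    by_contra h0
    have h1 : A h = 0 := by omega
    have h2 := hA h
    rw [h1, mul_zero] at h2
    have h3 := Nat.mul_pos (hc h) hE1
    omega
  have hB1 : ∀ h, 1 ≤ B h := by
    intro h
    by_contra h0
    have h1 : B h = 0 := by omega
    have h2 := hB h
    rw [h1, mul_zero] at h2
    omega
  have hrB : ∀ h, ¬ r h ∣ B h := by
    intro h hd
    have h1 : (r h : ℤ) ^ (e h + 1) ∣ (c h * n0 + 1 : ℤ) := by
      have h2 : r h ^ (e h + 1) ∣ c h * n0 + 1 := by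
        rw [hB h, pow_succ]
        exact mul_dvd_mul_left _ hd
      exact_mod_cast h2
    have h2 : (r h : ℤ) ^ (e h + 1) ∣ (c h * n0 + 1 : ℤ) - (r h : ℤ) ^ e h :=
      (pow_dvd_pow _ (hNe h)).trans (hn0r h)
    have h3 := dvd_sub h1 h2
    rw [sub_sub_cancel] at h3
    have h4 : r h ^ (e h + 1) ∣ r h ^ e h := by exact_mod_cast h3
    have h5 := (Nat.pow_dvd_pow_iff_le_right (hrp h).one_lt).1 h4
    omega
  have hrother : ∀ h h', h ≠ h' → ¬ r h' ∣ c h * n0 + 1 := by
    intro h h' hne hd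
    have hnot1 : ¬ r h' ∣ 1 := fun h1 => (hrp h').one_lt.ne' (Nat.dvd_one.1 h1)
    have hn0' : ¬ r h' ∣ n0 := by
      intro h1
      exact hnot1 ((Nat.dvd_add_right (h1.mul_left (c h))).1 hd)
    by_cases he : e h' = 0
    · have h1 := hn0r h'
      rw [he, pow_zero, add_sub_cancel_right] at h1
      have h2 : (r h' : ℤ) ∣ (c h' : ℤ) * n0 := (dvd_pow_self _ (by omega)).trans h1
      have h3 : r h' ∣ c h' * n0 := by exact_mod_cast h2
      rcases (Nat.Prime.dvd_mul (hrp h')).1 h3 with h4 | h4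
      · exact hrc h' h' h4
      · exact hn0' h4
    · have h1 : r h' ∣ c h' * n0 + 1 := by
        rw [hB h']
        exact Dvd.dvd.mul_right (dvd_pow_self _ he) _
      have h2 : (r h' : ℤ) ∣ ((c h * n0 + 1 : ℕ) : ℤ) - ((c h' * n0 + 1 : ℕ) : ℤ) :=
        dvd_sub (by exact_mod_cast hd) (by exact_mod_cast h1)
      have h3 : ((c h * n0 + 1 : ℕ) : ℤ) - ((c h' * n0 + 1 : ℕ) : ℤ) = ((c h : ℤ) - c h') * n0 := by
        push_cast; ring
      rw [h3] at h2
      rcases (Nat.prime_iff_prime_int.1 (hrp h')).dvd_or_dvd h2 with h4 | h4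
      · have h5 : r h' ∣ ((c h : ℤ) - c h').natAbs := Int.natCast_dvd.1 h4
        have h6 : ((c h : ℤ) - c h').natAbs ≠ 0 := by
          intro h7
          have h8 : c h = c h' := by omega
          exact hne (hinj h8)
        have h7 := Nat.le_of_dvd (Nat.pos_of_ne_zero h6) h5
        have h8 := hrT h'
        have h9 := hcT h
        have h10 := hcT h'
        omega
      · exact hn0' (by exact_mod_cast h4)
  have hpA : ∀ p ∈ S, ∀ h, p ∣ A h := by
    intro p hp h
    have hpN : p ^ N ∣ r h ^ e h * A h := by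
      rw [← hA h]
      exact (hpE p hp).mul_left _
    by_cases hpr : p = r h
    · subst hpr
      have h1 : r h ^ (e h + 1) ∣ r h ^ e h * A h := (pow_dvd_pow _ (hNe h)).trans hpN
      rw [pow_succ] at h1
      exact (Nat.mul_dvd_mul_iff_left (hrpos h)).1 h1
    · have h1 : p ∣ r h ^ e h * A h := (dvd_pow_self _ (by omega)).trans hpN
      rcases (Nat.Prime.dvd_mul (hSp p hp)).1 h1 with h2 | h2
      · exact absurd ((Nat.prime_dvd_prime_iff_eq (hSp p hp) (hrp h)).1
          ((hSp p hp).dvd_of_dvd_pow h2)) hpr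
      · exact h2
  refine ⟨n0, E, r, A, B, hE1, hrp, hrT, fun p hp hpT => ⟨hn0s p hp hpT, ?_⟩, ?_, ?_, hA1, hB1, ?_,
    fun p hp hpT h => hpA p (hsmall p hp hpT) h, fun h => hpA _ (hmemr h) h⟩
  · exact (dvd_pow_self _ (by omega)).trans (hpE p (hsmall p hp hpT))
  · intro h; rw [hA h]; ring
  · intro h; rw [hB h]; ring
  · intro h
    rw [Nat.coprime_iff_gcd_eq_one]
    by_contra hg
    obtain ⟨p, hp, hpg⟩ := Nat.exists_prime_and_dvd hg
    have hpA' : p ∣ A h := hpg.trans (Nat.gcd_dvd_left _ _)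
    have hpB' : p ∣ B h := hpg.trans (Nat.gcd_dvd_right _ _)
    have hpc : p ∣ c h * n0 + 1 := by
      rw [hB h]
      exact hpB'.mul_left _
    have hnot1 : ¬ p ∣ 1 := fun h1 => hp.one_lt.ne' (Nat.dvd_one.1 h1)
    have hpS : p ∈ S := by
      have h1 : p ∣ c h * E := by
        rw [hA h]
        exact hpA'.mul_left _
      rcases (Nat.Prime.dvd_mul hp).1 h1 with h2 | h2
      · exact hsmall p hp (by
          have h3 := Nat.le_of_dvd (hc h) h2
          have h4 := hcT h
          omega)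
      · rw [hE, Prime.dvd_finsetProd_iff hp.prime] at h2
        obtain ⟨q, hq, hpq⟩ := h2
        rw [(Nat.prime_dvd_prime_iff_eq hp (hSp q hq)).1 (hp.dvd_of_dvd_pow hpq)]
        exact hq
    rcases hSc p hpS with h1 | ⟨h', hh'⟩
    · exact hnot1 ((Nat.dvd_add_right ((hn0s p hp h1).mul_left (c h))).1 hpc)
    · by_cases hhh : h = h'
      · rw [hhh, ← hh'] at hpB'
        exact hrB h' hpB'
      · rw [← hh'] at hpc
        exact hrother h h' hhh hpc

end Pool.Agent.Y887.TD
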