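import Mathlib

/-!
A matrix of small integers in which every large submatrix contains every value, and the resulting
coincidence lemma.
-/

set_option autoImplicit false

namespace Pool.Agent.Y887.TD

open Finset

/-- a function that takes every value on every product of two sets of `t` elements -/
theorem exists_good (k R t : ℕ)
    (h : (k.choose t * k.choose t) * (2 * R + 1) * (2 * R) ^ (t * t) < (2 * R + 1) ^ (t * t)) :
    ∃ c : Fin k × Fin k → Fin (2 * R + 1), ∀ A : Finset (Fin k), A.card = t →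
      ∀ B : Finset (Fin k), B.card = t → ∀ v : Fin (2 * R + 1), ∃ p ∈ A ×ˢ B, c p = v := by
  classical
  by_contra hcon
  push Not at hcon
  set bad : (Finset (Fin k) × Finset (Fin k)) × Fin (2 * R + 1) →
      Finset (Fin k × Fin k → Fin (2 * R + 1)) := fun q =>
    Fintype.piFinset (fun p => if p ∈ q.1.1 ×ˢ q.1.2 then univ.erase q.2 else univ) with hbad
  set I : Finset ((Finset (Fin k) × Finset (Fin k)) × Fin (2 * R + 1)) :=
    (powersetCard t univ ×ˢ powersetCard t univ) ×ˢ univ with hI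
  have hcov : (univ : Finset (Fin k × Fin k → Fin (2 * R + 1))) ⊆ I.biUnion bad := by
    intro c _
    obtain ⟨A, hA, B, hB, v, hv⟩ := hcon c
    rw [mem_biUnion]
    refine ⟨((A, B), v), ?_, ?_⟩
    · rw [hI]
      simp only [mem_product, mem_powersetCard, mem_univ, and_true]
      exact ⟨⟨subset_univ _, hA⟩, ⟨subset_univ _, hB⟩⟩
    · rw [hbad, Fintype.mem_piFinset]
      intro p
      split_ifs with hp
      · rw [mem_erase]
        exact ⟨hv p hp, mem_univ _⟩
      · exact mem_univ _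
  have hcard : ∀ q ∈ I, (bad q).card * (2 * R + 1) ^ (t * t) =
      (2 * R) ^ (t * t) * (2 * R + 1) ^ (k * k) := by
    intro q hq
    rw [hI] at hq
    simp only [mem_product, mem_powersetCard, mem_univ, and_true] at hq
    obtain ⟨⟨_, hA⟩, ⟨_, hB⟩⟩ := hq
    rw [hbad]
    simp only
    rw [Fintype.card_piFinset]
    have h1 : ∀ p : Fin k × Fin k, (if p ∈ q.1.1 ×ˢ q.1.2 then univ.erase q.2 else
        (univ : Finset (Fin (2 * R + 1)))).card = if p ∈ q.1.1 ×ˢ q.1.2 then 2 * R else 2 * R + 1 := by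
      intro p
      split_ifs
      · rw [card_erase_of_mem (mem_univ _), card_univ, Fintype.card_fin, Nat.add_sub_cancel]
      · rw [card_univ, Fintype.card_fin]
    rw [prod_congr rfl (fun p _ => h1 p), prod_ite, prod_const, prod_const]
    have h2 : (univ.filter (fun p : Fin k × Fin k => p ∈ q.1.1 ×ˢ q.1.2)).card = t * t := by
      rw [show univ.filter (fun p : Fin k × Fin k => p ∈ q.1.1 ×ˢ q.1.2) = q.1.1 ×ˢ q.1.2 by
        ext p; simp, card_product, hA, hB]
    have h3 := card_filter_add_card_filter_not (s := (univ : Finset (Fin k × Fin k)))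
      (fun p => p ∈ q.1.1 ×ˢ q.1.2)
    rw [h2, card_univ, Fintype.card_prod, Fintype.card_fin] at h3
    rw [h2, mul_assoc, ← pow_add]
    congr 2
    omega
  have h1 : ((univ : Finset (Fin k × Fin k → Fin (2 * R + 1))).card) * (2 * R + 1) ^ (t * t) ≤
      (k.choose t * k.choose t) * (2 * R + 1) * ((2 * R) ^ (t * t) * (2 * R + 1) ^ (k * k)) := by
    calc _ ≤ (∑ q ∈ I, (bad q).card) * (2 * R + 1) ^ (t * t) :=
          Nat.mul_le_mul_right _ ((card_le_card hcov).trans card_biUnion_le)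
      _ = ∑ q ∈ I, (2 * R) ^ (t * t) * (2 * R + 1) ^ (k * k) := by
          rw [sum_mul]
          exact sum_congr rfl hcard
      _ = _ := by
          rw [sum_const, smul_eq_mul, hI, card_product, card_product, card_powersetCard, card_univ,
            Fintype.card_fin, card_univ, Fintype.card_fin]
  rw [card_univ, Fintype.card_fun, Fintype.card_prod, Fintype.card_fin, Fintype.card_fin] at h1
  have h2 : (k.choose t * k.choose t) * (2 * R + 1) * ((2 * R) ^ (t * t) * (2 * R + 1) ^ (k * k)) <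
      (2 * R + 1) ^ (k * k) * (2 * R + 1) ^ (t * t) := by
    calc _ = ((k.choose t * k.choose t) * (2 * R + 1) * (2 * R) ^ (t * t)) * (2 * R + 1) ^ (k * k) := by
          ring
      _ < (2 * R + 1) ^ (t * t) * (2 * R + 1) ^ (k * k) :=
          Nat.mul_lt_mul_of_pos_right h (by positivity)
      _ = _ := by ring
  omega

theorem two_pow_mul (R w : ℕ) (hR : 1 ≤ R) :
    2 ^ w * (2 * R) ^ (2 * R * w) ≤ (2 * R + 1) ^ (2 * R * w) := by
  have h1 : 2 * (2 * R) ^ (2 * R) ≤ (2 * R + 1) ^ (2 * R) := by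
    have h2 := one_add_mul_le_pow (a := 1 / (2 * R : ℝ)) (by
      have : (0 : ℝ) ≤ 1 / (2 * R : ℝ) := by positivity
      linarith) (2 * R)
    have hR0 : (0 : ℝ) < 2 * R := by
      have : (1 : ℝ) ≤ R := by exact_mod_cast hR
      linarith
    have h3 : (2 : ℝ) ≤ (1 + 1 / (2 * R : ℝ)) ^ (2 * R) := by
      refine le_trans (le_of_eq ?_) h2
      push_cast
      field_simp
      norm_num
    have h4 : (2 : ℝ) * (2 * R) ^ (2 * R) ≤ (2 * R + 1) ^ (2 * R) := by
      calc (2 : ℝ) * (2 * R) ^ (2 * R) ≤ (1 + 1 / (2 * R : ℝ)) ^ (2 * R) * (2 * R) ^ (2 * R) :=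
            mul_le_mul_of_nonneg_right h3 (by positivity)
        _ = (2 * R + 1) ^ (2 * R) := by
            rw [← mul_pow]
            congr 1
            field_simp
    exact_mod_cast h4
  calc 2 ^ w * (2 * R) ^ (2 * R * w) = (2 * (2 * R) ^ (2 * R)) ^ w := by
        rw [mul_pow 2 ((2 * R) ^ (2 * R)) w, ← pow_mul (2 * R) (2 * R) w]
    _ ≤ ((2 * R + 1) ^ (2 * R)) ^ w := Nat.pow_le_pow_left h1 w
    _ = _ := by rw [← pow_mul]

theorem exists_u (C : ℕ) : ∃ u : ℕ, 16 * (C * (u + 2)) * (u + 1) * (C * (u + 2) + 1) ≤ 3 * 2 ^ u := by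
  have h1 := tendsto_pow_const_div_const_pow_of_one_lt 3 (show (1 : ℝ) < 2 by norm_num)
  have h2 := h1.eventually_lt_const (show (0 : ℝ) < 1 / (16 * 64 * ((C : ℝ) + 1) ^ 2) by positivity)
  obtain ⟨u, hu, hu1⟩ := (h2.and (Filter.eventually_ge_atTop 2)).exists
  refine ⟨u, ?_⟩
  have hp : (0 : ℝ) < (2 : ℝ) ^ u := by positivity
  have hCp : (0 : ℝ) < 16 * 64 * ((C : ℝ) + 1) ^ 2 := by positivity
  rw [div_lt_div_iff₀ hp hCp, one_mul] at hu
  have hur : (2 : ℝ) ≤ u := by exact_mod_cast hu1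
  have hC0 : (0 : ℝ) ≤ C := Nat.cast_nonneg C
  have key : (16 * ((C : ℝ) * (u + 2)) * (u + 1) * (C * (u + 2) + 1)) ≤ 3 * 2 ^ u := by
    have a1 : (C : ℝ) * (u + 2) ≤ (C + 1) * (2 * u) := by nlinarith
    have a2 : (u : ℝ) + 1 ≤ 2 * u := by linarith
    have a3 : (C : ℝ) * (u + 2) + 1 ≤ (C + 1) * (4 * u) := by nlinarith
    calc (16 * ((C : ℝ) * (u + 2)) * (u + 1) * (C * (u + 2) + 1))
        ≤ 16 * ((C + 1) * (2 * u)) * (2 * u) * ((C + 1) * (4 * u)) := by gcongr
      _ = (u ^ 3 * (16 * 64 * (C + 1) ^ 2)) / 4 := by ring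
      _ ≤ 3 * 2 ^ u := by linarith
  exact_mod_cast key

/-- the coincidence lemma -/
theorem coincidence (C : ℕ) (hC : 1 ≤ C) : ∃ k R : ℕ, 1 ≤ k ∧ R = C * (Nat.log 2 (2 * k) + 1) ∧
    ∃ c : Fin k → Fin k → ℕ, (∀ i j, c i j ≤ 2 * R) ∧
      ∀ (S T : Finset (Fin k)) (α β : Fin k → ℕ), 3 * k ≤ 4 * S.card → 3 * k ≤ 4 * T.card →
        (∀ i ∈ S, α i ≤ R) → (∀ j ∈ T, β j ≤ R) → ∃ i ∈ S, ∃ j ∈ T, c i j + α i = R + β j := by
  classical
  obtain ⟨u, hu⟩ := exists_u C
  set R : ℕ := C * (u + 2) with hR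
  set t : ℕ := 4 * R * (u + 1) with ht
  have hR1 : 1 ≤ R := by
    rw [hR]
    nlinarith
  have hlog : Nat.log 2 (2 * 2 ^ u) + 1 = u + 2 := by
    rw [← pow_succ', Nat.log_pow (by norm_num)]
  have htk4 : 4 * (t * (R + 1)) ≤ 3 * 2 ^ u := by
    refine le_trans (le_of_eq ?_) hu
    rw [ht]; ring
  have htk : t ≤ 2 ^ u := by nlinarith
  have hgood : ((2 ^ u).choose t * (2 ^ u).choose t) * (2 * R + 1) * (2 * R) ^ (t * t) <
      (2 * R + 1) ^ (t * t) := by
    have h1 : (2 ^ u).choose t ≤ 2 ^ (u * t) := by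
      calc (2 ^ u).choose t ≤ (2 ^ u) ^ t := Nat.choose_le_pow _ _
        _ = 2 ^ (u * t) := by rw [← pow_mul]
    have htt : t * t = 2 * R * (2 * u * t + 2 * t) := by
      have : t * t = (4 * R * (u + 1)) * t := by rw [← ht]
      rw [this]; ring
    have h2 : (2 * R + 1) < 2 ^ (2 * t) := by
      have h3 : 2 * R + 1 ≤ 2 * t := by
        rw [ht]; nlinarith
      exact lt_of_le_of_lt h3 (Nat.lt_two_pow_self)
    calc ((2 ^ u).choose t * (2 ^ u).choose t) * (2 * R + 1) * (2 * R) ^ (t * t)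
        ≤ (2 ^ (u * t) * 2 ^ (u * t)) * (2 * R + 1) * (2 * R) ^ (t * t) := by gcongr
      _ < (2 ^ (u * t) * 2 ^ (u * t)) * 2 ^ (2 * t) * (2 * R) ^ (t * t) := by
          apply Nat.mul_lt_mul_of_pos_right _ (by positivity)
          exact Nat.mul_lt_mul_of_pos_left h2 (by positivity)
      _ = 2 ^ (2 * u * t + 2 * t) * (2 * R) ^ (2 * R * (2 * u * t + 2 * t)) := by
          rw [← pow_add, ← pow_add, htt]
          congr 2
          ring
      _ ≤ (2 * R + 1) ^ (2 * R * (2 * u * t + 2 * t)) := two_pow_mul R _ hR1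
      _ = _ := by rw [← htt]
  obtain ⟨c, hc⟩ := exists_good (2 ^ u) R t hgood
  refine ⟨2 ^ u, R, Nat.one_le_two_pow, ?_, fun i j => (c (i, j) : ℕ), ?_, ?_⟩
  · rw [hlog]
  · intro i j
    have := (c (i, j)).isLt
    show (c (i, j) : ℕ) ≤ 2 * R
    omega
  · intro S T α β hS hT hα hβ
    have pig : ∀ (S : Finset (Fin (2 ^ u))) (α : Fin (2 ^ u) → ℕ), 3 * 2 ^ u ≤ 4 * S.card →
        (∀ i ∈ S, α i ≤ R) → ∃ a ≤ R, ∃ S' ⊆ S, S'.card = t ∧ ∀ i ∈ S', α i = a := by
      intro S α hS hα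
      have h1 : (range (R + 1)).card * t ≤ S.card := by
        rw [card_range]
        nlinarith
      obtain ⟨a, ha, hcard⟩ := exists_le_card_fiber_of_mul_le_card_of_maps_to
        (f := α) (s := S) (t := range (R + 1)) (fun i hi => mem_range.2 (by have := hα i hi; omega))
        ⟨0, by simp⟩ h1
      obtain ⟨S', hS', hS'c⟩ := exists_subset_card_eq hcard
      refine ⟨a, by have := mem_range.1 ha; omega, S', fun i hi => (mem_filter.1 (hS' hi)).1, hS'c,
        fun i hi => (mem_filter.1 (hS' hi)).2⟩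
    obtain ⟨a, ha, S', hS', hS'c, hS'a⟩ := pig S α hS hα
    obtain ⟨b, hb, T', hT', hT'c, hT'b⟩ := pig T β hT hβ
    obtain ⟨p, hp, hpv⟩ := hc S' hS'c T' hT'c ⟨R + b - a, by omega⟩
    rw [mem_product] at hp
    refine ⟨p.1, hS' hp.1, p.2, hT' hp.2, ?_⟩
    rw [hS'a _ hp.1, hT'b _ hp.2]
    have : (c (p.1, p.2) : ℕ) = R + b - a := by
      rw [Prod.mk.eta, hpv]
    show (c (p.1, p.2) : ℕ) + a = R + b
    rw [this]
    omega

end Pool.Agent.Y887.TD
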