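import Mathlib

/-!
The representations of `n` by `6 x y ± x ± y` and the divisors of `6 n - 1` and `6 n + 1`.
-/

set_option autoImplicit false

namespace Pool.Agent.Y887.TD

open Finset

/-- the number of pairs `x ≥ y ≥ 1` with `n = 6 x y + x + y` or `n = 6 x y - x - y` -/
def rPlus (n : ℕ) : ℕ := ((Icc 1 n ×ˢ Icc 1 n).filter (fun z : ℕ × ℕ => z.2 ≤ z.1 ∧
  (n = 6 * z.1 * z.2 + z.1 + z.2 ∨ n + z.1 + z.2 = 6 * z.1 * z.2))).card

/-- the number of pairs `x ≥ y ≥ 1` with `n = 6 x y + x - y` or `n = 6 x y - x + y` -/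
def rMinus (n : ℕ) : ℕ := ((Icc 1 n ×ˢ Icc 1 n).filter (fun z : ℕ × ℕ => z.2 ≤ z.1 ∧
  (n + z.2 = 6 * z.1 * z.2 + z.1 ∨ n + z.1 = 6 * z.1 * z.2 + z.2))).card

theorem le_of_eq6 {n x y : ℕ} (hx : 1 ≤ x) (hy : 1 ≤ y) (h : 6 * x * y ≤ n + x + y) :
    x ≤ n ∧ y ≤ n := by
  constructor <;> nlinarith [Nat.mul_le_mul hx hy, Nat.mul_le_mul hx (le_refl y)]

theorem mod6_cases {d e : ℕ} (h : (d * e) % 6 = 5) :
    (d % 6 = 1 ∧ e % 6 = 5) ∨ (d % 6 = 5 ∧ e % 6 = 1) := by
  rw [Nat.mul_mod] at h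
  have h1 : d % 6 = 0 ∨ d % 6 = 1 ∨ d % 6 = 2 ∨ d % 6 = 3 ∨ d % 6 = 4 ∨ d % 6 = 5 := by omega
  have h2 : e % 6 = 0 ∨ e % 6 = 1 ∨ e % 6 = 2 ∨ e % 6 = 3 ∨ e % 6 = 4 ∨ e % 6 = 5 := by omega
  rcases h1 with h1 | h1 | h1 | h1 | h1 | h1 <;> rcases h2 with h2 | h2 | h2 | h2 | h2 | h2 <;>
    rw [h1, h2] at h <;> omega

theorem mod6_cases' {d e : ℕ} (h : (d * e) % 6 = 1) :
    (d % 6 = 1 ∧ e % 6 = 1) ∨ (d % 6 = 5 ∧ e % 6 = 5) := by
  rw [Nat.mul_mod] at h
  have h1 : d % 6 = 0 ∨ d % 6 = 1 ∨ d % 6 = 2 ∨ d % 6 = 3 ∨ d % 6 = 4 ∨ d % 6 = 5 := by omega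
  have h2 : e % 6 = 0 ∨ e % 6 = 1 ∨ e % 6 = 2 ∨ e % 6 = 3 ∨ e % 6 = 4 ∨ e % 6 = 5 := by omega
  rcases h1 with h1 | h1 | h1 | h1 | h1 | h1 <;> rcases h2 with h2 | h2 | h2 | h2 | h2 | h2 <;>
    rw [h1, h2] at h <;> omega

/-- the ordered pairs with `n = 6 x y - x + y` -/
def oMinus (n : ℕ) : Finset (ℕ × ℕ) :=
  (Icc 1 n ×ˢ Icc 1 n).filter (fun z : ℕ × ℕ => n + z.1 = 6 * z.1 * z.2 + z.2)

theorem rMinus_eq (n : ℕ) : rMinus n = (oMinus n).card := by
  classical
  unfold rMinus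
  set R := (Icc 1 n ×ˢ Icc 1 n).filter (fun z : ℕ × ℕ => z.2 ≤ z.1 ∧
    (n + z.2 = 6 * z.1 * z.2 + z.1 ∨ n + z.1 = 6 * z.1 * z.2 + z.2)) with hR
  have h1 := card_filter_add_card_filter_not (s := R) (fun z => n + z.1 = 6 * z.1 * z.2 + z.2)
  have h2 := card_filter_add_card_filter_not (s := oMinus n) (fun z => z.2 ≤ z.1)
  have e1 : R.filter (fun z => n + z.1 = 6 * z.1 * z.2 + z.2) =
      (oMinus n).filter (fun z => z.2 ≤ z.1) := by
    ext z
    simp only [hR, oMinus, mem_filter]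
    tauto
  have e2 : (R.filter (fun z => ¬ n + z.1 = 6 * z.1 * z.2 + z.2)).card =
      ((oMinus n).filter (fun z => ¬ z.2 ≤ z.1)).card := by
    apply card_nbij' Prod.swap Prod.swap
    · rintro ⟨x, y⟩ hz
      simp only [hR, oMinus, mem_filter, mem_product, mem_Icc, coe_filter, Set.mem_setOf_eq,
        Prod.fst_swap, Prod.snd_swap] at hz ⊢
      obtain ⟨⟨⟨h3, h4⟩, h5, h6⟩, h7⟩ := hz
      rcases h6 with h6 | h6
      · refine ⟨⟨⟨h4, h3⟩, ?_⟩, ?_⟩
        · rw [h6]; ring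
        · intro h8
          have h9 : x = y := le_antisymm h8 h5
          subst h9
          exact h7 h6
      · exact absurd h6 h7
    · rintro ⟨x, y⟩ hz
      simp only [hR, oMinus, mem_filter, mem_product, mem_Icc, coe_filter, Set.mem_setOf_eq,
        Prod.fst_swap, Prod.snd_swap] at hz ⊢
      obtain ⟨⟨⟨h3, h4⟩, h5⟩, h6⟩ := hz
      refine ⟨⟨⟨h4, h3⟩, by omega, Or.inl (by rw [h5]; ring)⟩, fun h7 => ?_⟩
      have h8 : 6 * y * x = 6 * x * y := by ring
      rw [h8] at h7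
      omega
    · rintro ⟨x, y⟩ _; rfl
    · rintro ⟨x, y⟩ _; rfl
  rw [← h1, ← h2, e1, e2]

theorem card_oMinus (n : ℕ) (hn : 1 ≤ n) :
    (((6 * n - 1).divisors.filter (fun d => d % 6 = 1))).card = (oMinus n).card + 1 := by
  classical
  set N := 6 * n - 1 with hN
  have hN0 : N ≠ 0 := by omega
  have hN1 : (1 : ℕ) ∈ (N.divisors.filter (fun d => d % 6 = 1)) := by
    rw [mem_filter, Nat.mem_divisors]
    exact ⟨⟨one_dvd _, hN0⟩, rfl⟩
  rw [← card_erase_add_one hN1]
  congr 1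
  symm
  apply card_bij (fun z _ => 6 * z.1 + 1)
  · rintro ⟨x, y⟩ hz
    simp only [oMinus, mem_filter, mem_product, mem_Icc] at hz
    obtain ⟨⟨⟨h1, h2⟩, h3, h4⟩, h5⟩ := hz
    rw [mem_erase, mem_filter, Nat.mem_divisors]
    refine ⟨by simp only; omega, ⟨⟨6 * y - 1, ?_⟩, hN0⟩, by simp only; omega⟩
    simp only
    obtain ⟨y', rfl⟩ : ∃ y', y = y' + 1 := ⟨y - 1, by omega⟩
    have : 6 * (y' + 1) - 1 = 6 * y' + 5 := by omega
    rw [this]
    have e : (6 * x + 1) * (6 * y' + 5) = 6 * (6 * x * (y' + 1) + (y' + 1)) - 6 * x - 1 := by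
      have : 6 * (6 * x * (y' + 1) + (y' + 1)) = (6 * x + 1) * (6 * y' + 5) + (6 * x + 1) := by ring
      omega
    rw [e, ← h5]
    omega
  · rintro ⟨x, y⟩ hz ⟨x', y'⟩ hz' h
    simp only [oMinus, mem_filter, mem_product, mem_Icc] at hz hz'
    simp only at h
    have hx : x = x' := by omega
    subst hx
    have h1 : (6 * x + 1) * y = (6 * x + 1) * y' := by nlinarith [hz.2, hz'.2]
    have h2 : y = y' := Nat.eq_of_mul_eq_mul_left (by omega) h1
    rw [h2]
  · intro d hd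
    rw [mem_erase, mem_filter, Nat.mem_divisors] at hd
    obtain ⟨h1, ⟨⟨e, he⟩, -⟩, h3⟩ := hd
    have h4 : (d * e) % 6 = 5 := by rw [← he]; omega
    have h5 : e % 6 = 5 := by
      rcases mod6_cases h4 with h | h
      · exact h.2
      · omega
    obtain ⟨x, rfl⟩ : ∃ x, d = 6 * x + 1 := ⟨d / 6, by omega⟩
    obtain ⟨y, rfl⟩ : ∃ y, e = 6 * y + 5 := ⟨e / 6, by omega⟩
    have hx : 1 ≤ x := by omega
    have h6 : n + x = 6 * x * (y + 1) + (y + 1) := by
      have : (6 * x + 1) * (6 * y + 5) + (6 * x + 1) = 6 * (6 * x * (y + 1) + (y + 1)) := by ring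
      omega
    obtain ⟨h7, h8⟩ := le_of_eq6 hx (Nat.succ_pos y) (n := n) (by
      rw [Nat.succ_eq_add_one]; omega)
    refine ⟨(x, y + 1), ?_, rfl⟩
    simp only [oMinus, mem_filter, mem_product, mem_Icc]
    exact ⟨⟨⟨hx, h7⟩, Nat.succ_pos y, h8⟩, h6⟩

theorem rMinus_card (n : ℕ) (hn : 1 ≤ n) : (6 * n - 1).divisors.card = 2 * (rMinus n + 1) := by
  classical
  rw [rMinus_eq, ← card_oMinus n hn]
  set N := 6 * n - 1 with hN
  have hN0 : N ≠ 0 := by omega
  have h1 := card_filter_add_card_filter_not (s := N.divisors) (fun d => d % 6 = 1)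
  have h2 : (N.divisors.filter (fun d => ¬ d % 6 = 1)).card =
      (N.divisors.filter (fun d => d % 6 = 1)).card := by
    have hmul : ∀ d ∈ N.divisors, d * (N / d) = N := fun d hd =>
      Nat.mul_div_cancel' (Nat.dvd_of_mem_divisors hd)
    apply card_nbij' (fun d => N / d) (fun d => N / d)
    · intro d hd
      rw [mem_coe, mem_filter] at hd ⊢
      beta_reduce
      have h3 := hmul d hd.1
      have h4 : (d * (N / d)) % 6 = 5 := by rw [h3]; omega
      refine ⟨Nat.mem_divisors.2 ⟨Nat.div_dvd_of_dvd (Nat.dvd_of_mem_divisors hd.1), hN0⟩, ?_⟩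
      rcases mod6_cases h4 with h | h
      · exact absurd h.1 hd.2
      · exact h.2
    · intro d hd
      rw [mem_coe, mem_filter] at hd ⊢
      beta_reduce
      have h3 := hmul d hd.1
      have h4 : (d * (N / d)) % 6 = 5 := by rw [h3]; omega
      refine ⟨Nat.mem_divisors.2 ⟨Nat.div_dvd_of_dvd (Nat.dvd_of_mem_divisors hd.1), hN0⟩, ?_⟩
      rcases mod6_cases h4 with h | h
      · omega
      · omega
    · intro d hd
      rw [mem_coe, mem_filter] at hd
      exact Nat.div_div_self (Nat.dvd_of_mem_divisors hd.1) hN0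
    · intro d hd
      rw [mem_coe, mem_filter] at hd
      exact Nat.div_div_self (Nat.dvd_of_mem_divisors hd.1) hN0
  omega

theorem rPlus_card (n : ℕ) (hns : ¬ IsSquare (6 * n + 1)) :
    (6 * n + 1).divisors.card = 2 * (rPlus n + 1) := by
  classical
  set N := 6 * n + 1 with hN
  have hN0 : N ≠ 0 := by omega
  have hmul : ∀ d ∈ N.divisors, d * (N / d) = N := fun d hd =>
    Nat.mul_div_cancel' (Nat.dvd_of_mem_divisors hd)
  have hne : ∀ d ∈ N.divisors, d ≠ N / d := by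
    intro d hd h
    apply hns
    exact ⟨d, by nth_rewrite 1 [← hmul d hd]; rw [← h]⟩
  -- small and large divisors
  have h1 := card_filter_add_card_filter_not (s := N.divisors) (fun d => d < N / d)
  have h2 : (N.divisors.filter (fun d => ¬ d < N / d)).card =
      (N.divisors.filter (fun d => d < N / d)).card := by
    apply card_nbij' (fun d => N / d) (fun d => N / d)
    · intro d hd
      rw [mem_coe, mem_filter] at hd ⊢
      beta_reduce
      have hdd := Nat.dvd_of_mem_divisors hd.1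
      refine ⟨Nat.mem_divisors.2 ⟨Nat.div_dvd_of_dvd hdd, hN0⟩, ?_⟩
      rw [Nat.div_div_self hdd hN0]
      have := hne d hd.1
      omega
    · intro d hd
      rw [mem_coe, mem_filter] at hd ⊢
      beta_reduce
      have hdd := Nat.dvd_of_mem_divisors hd.1
      refine ⟨Nat.mem_divisors.2 ⟨Nat.div_dvd_of_dvd hdd, hN0⟩, ?_⟩
      rw [Nat.div_div_self hdd hN0]
      omega
    · intro d hd
      rw [mem_coe, mem_filter] at hd
      exact Nat.div_div_self (Nat.dvd_of_mem_divisors hd.1) hN0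
    · intro d hd
      rw [mem_coe, mem_filter] at hd
      exact Nat.div_div_self (Nat.dvd_of_mem_divisors hd.1) hN0
  -- the small divisors
  have h3 := card_filter_add_card_filter_not (s := N.divisors.filter (fun d => d < N / d))
    (fun d => d % 6 = 1)
  have hn1 : n ≠ 0 := by
    rintro rfl
    exact hns ⟨1, rfl⟩
  have h1mem : (1 : ℕ) ∈ (N.divisors.filter (fun d => d < N / d)).filter (fun d => d % 6 = 1) := by
    rw [mem_filter, mem_filter, Nat.mem_divisors, Nat.div_one]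
    exact ⟨⟨⟨one_dvd _, hN0⟩, by omega⟩, rfl⟩
  rw [← card_erase_add_one h1mem] at h3
  -- the representations
  unfold rPlus
  set R := (Icc 1 n ×ˢ Icc 1 n).filter (fun z : ℕ × ℕ => z.2 ≤ z.1 ∧
    (n = 6 * z.1 * z.2 + z.1 + z.2 ∨ n + z.1 + z.2 = 6 * z.1 * z.2)) with hR
  have h4 := card_filter_add_card_filter_not (s := R) (fun z => n = 6 * z.1 * z.2 + z.1 + z.2)
  have h5 : (R.filter (fun z => n = 6 * z.1 * z.2 + z.1 + z.2)).card =
      (((N.divisors.filter (fun d => d < N / d)).filter (fun d => d % 6 = 1)).erase 1).card := by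
    apply card_bij (fun z _ => 6 * z.2 + 1)
    · rintro ⟨x, y⟩ hz
      simp only [hR, mem_filter, mem_product, mem_Icc] at hz
      obtain ⟨⟨⟨⟨a1, a2⟩, a3, a4⟩, a5, -⟩, a6⟩ := hz
      have hprod : N = (6 * y + 1) * (6 * x + 1) := by
        rw [hN, a6]; ring
      have hdiv : N / (6 * y + 1) = 6 * x + 1 := by
        rw [hprod]; exact Nat.mul_div_cancel_left _ (by omega)
      have hxy : y < x := by
        rcases Nat.lt_or_ge y x with h | h
        · exact h
        · exfalso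
          have : x = y := by omega
          subst this
          exact hns ⟨6 * x + 1, hprod⟩
      simp only [mem_erase, mem_filter, Nat.mem_divisors]
      exact ⟨by omega, ⟨⟨⟨6 * x + 1, hprod⟩, hN0⟩, by rw [hdiv]; omega⟩, by omega⟩
    · rintro ⟨x, y⟩ hz ⟨x', y'⟩ hz' h
      simp only [hR, mem_filter, mem_product, mem_Icc] at hz hz'
      simp only at h
      have hy : y = y' := by omega
      subst hy
      have h1 : (6 * y + 1) * x = (6 * y + 1) * x' := by nlinarith [hz.2, hz'.2]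
      have h2 : x = x' := Nat.eq_of_mul_eq_mul_left (by omega) h1
      rw [h2]
    · intro d hd
      simp only [mem_erase, mem_filter, Nat.mem_divisors] at hd
      obtain ⟨b1, ⟨⟨⟨e, he⟩, -⟩, b2⟩, b3⟩ := hd
      have hd0 : 0 < d := by
        rcases Nat.eq_zero_or_pos d with h | h
        · rw [h, zero_mul] at he; omega
        · exact h
      have hdiv : N / d = e := by rw [he]; exact Nat.mul_div_cancel_left _ hd0
      rw [hdiv] at b2
      have h4 : (d * e) % 6 = 1 := by rw [← he]; omega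
      have h5 : e % 6 = 1 := by
        rcases mod6_cases' h4 with h | h
        · exact h.2
        · omega
      obtain ⟨y, rfl⟩ : ∃ y, d = 6 * y + 1 := ⟨d / 6, by omega⟩
      obtain ⟨x, rfl⟩ : ∃ x, e = 6 * x + 1 := ⟨e / 6, by omega⟩
      have h6 : n = 6 * x * y + x + y := by
        have : (6 * y + 1) * (6 * x + 1) = 6 * (6 * x * y + x + y) + 1 := by ring
        omega
      obtain ⟨h7, h8⟩ := le_of_eq6 (x := x) (y := y) (by omega) (by omega) (n := n) (by omega)
      refine ⟨(x, y), ?_, rfl⟩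
      simp only [hR, mem_filter, mem_product, mem_Icc]
      exact ⟨⟨⟨⟨by omega, h7⟩, by omega, h8⟩, by omega, Or.inl h6⟩, h6⟩
  have h6 : (R.filter (fun z => ¬ n = 6 * z.1 * z.2 + z.1 + z.2)).card =
      ((N.divisors.filter (fun d => d < N / d)).filter (fun d => ¬ d % 6 = 1)).card := by
    apply card_bij (fun z _ => 6 * z.2 - 1)
    · rintro ⟨x, y⟩ hz
      simp only [hR, mem_filter, mem_product, mem_Icc] at hz
      obtain ⟨⟨⟨⟨a1, a2⟩, a3, a4⟩, a5, a5'⟩, a6⟩ := hz
      have a7 : n + x + y = 6 * x * y := by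
        rcases a5' with h | h
        · exact absurd h a6
        · exact h
      obtain ⟨x', rfl⟩ : ∃ x', x = x' + 1 := ⟨x - 1, by omega⟩
      obtain ⟨y', rfl⟩ : ∃ y', y = y' + 1 := ⟨y - 1, by omega⟩
      have hprod : N = (6 * y' + 5) * (6 * x' + 5) := by
        have : (6 * y' + 5) * (6 * x' + 5) + 6 * (x' + 1) + 6 * (y' + 1) =
          6 * (6 * (x' + 1) * (y' + 1)) + 1 := by ring
        omega
      have hdiv : N / (6 * y' + 5) = 6 * x' + 5 := by
        rw [hprod]; exact Nat.mul_div_cancel_left _ (by omega)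
      have hxy : y' < x' := by
        rcases Nat.lt_or_ge y' x' with h | h
        · exact h
        · exfalso
          have : x' = y' := by omega
          subst this
          exact hns ⟨6 * x' + 5, hprod⟩
      have e1 : 6 * (y' + 1) - 1 = 6 * y' + 5 := by omega
      simp only [mem_filter, Nat.mem_divisors, e1]
      exact ⟨⟨⟨⟨6 * x' + 5, hprod⟩, hN0⟩, by rw [hdiv]; omega⟩, by omega⟩
    · rintro ⟨x, y⟩ hz ⟨x', y'⟩ hz' h
      simp only [hR, mem_filter, mem_product, mem_Icc] at hz hz'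
      simp only at h
      obtain ⟨⟨⟨⟨a1, a2⟩, a3, a4⟩, a5, a5'⟩, a6⟩ := hz
      obtain ⟨⟨⟨⟨b1, b2⟩, b3, b4⟩, b5, b5'⟩, b6⟩ := hz'
      have hy : y = y' := by omega
      subst hy
      have a7 : n + x + y = 6 * x * y := by
        rcases a5' with h | h
        · exact absurd h a6
        · exact h
      have b7 : n + x' + y = 6 * x' * y := by
        rcases b5' with h | h
        · exact absurd h b6
        · exact h
      obtain ⟨y'', rfl⟩ : ∃ y'', y = y'' + 1 := ⟨y - 1, by omega⟩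
      have h1 : (6 * y'' + 5) * x = (6 * y'' + 5) * x' := by nlinarith
      have h2 : x = x' := Nat.eq_of_mul_eq_mul_left (by omega) h1
      rw [h2]
    · intro d hd
      simp only [mem_filter, Nat.mem_divisors] at hd
      obtain ⟨⟨⟨⟨e, he⟩, -⟩, b2⟩, b3⟩ := hd
      have hd0 : 0 < d := by
        rcases Nat.eq_zero_or_pos d with h | h
        · rw [h, zero_mul] at he; omega
        · exact h
      have hdiv : N / d = e := by rw [he]; exact Nat.mul_div_cancel_left _ hd0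
      rw [hdiv] at b2
      have h4 : (d * e) % 6 = 1 := by rw [← he]; omega
      have h5 : d % 6 = 5 ∧ e % 6 = 5 := by
        rcases mod6_cases' h4 with h | h
        · exact absurd h.1 b3
        · exact h
      obtain ⟨y, rfl⟩ : ∃ y, d = 6 * y + 5 := ⟨d / 6, by omega⟩
      obtain ⟨x, rfl⟩ : ∃ x, e = 6 * x + 5 := ⟨e / 6, by omega⟩
      have h6 : n + (x + 1) + (y + 1) = 6 * (x + 1) * (y + 1) := by
        have : (6 * y + 5) * (6 * x + 5) + 6 * (x + 1) + 6 * (y + 1) =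
          6 * (6 * (x + 1) * (y + 1)) + 1 := by ring
        omega
      obtain ⟨h7, h8⟩ := le_of_eq6 (x := x + 1) (y := y + 1) (by omega) (by omega) (n := n)
        (by omega)
      refine ⟨(x + 1, y + 1), ?_, by simp only; omega⟩
      simp only [hR, mem_filter, mem_product, mem_Icc]
      refine ⟨⟨⟨⟨by omega, h7⟩, by omega, h8⟩, by omega, Or.inr h6⟩, fun h => ?_⟩
      omega
  omega

/-- a representation with a small `y` gives a small prime factor -/
theorem no_small {n M : ℕ} (h : ∀ p : ℕ, p.Prime → p ≤ 6 * M + 1 →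
      ¬ p ∣ 6 * n + 1 ∧ ¬ p ∣ 6 * n - 1) (x y : ℕ) (hx : 1 ≤ x) (hy : 1 ≤ y) (hyM : y ≤ M) :
    (n : ℤ) ≠ 6 * x * y + x + y ∧ (n : ℤ) ≠ 6 * x * y - x - y ∧
      (n : ℤ) ≠ 6 * x * y + x - y ∧ (n : ℤ) ≠ 6 * x * y - x + y := by
  have key : ∀ d : ℤ, 1 < d → d ≤ 6 * M + 1 → ¬ d ∣ 6 * (n : ℤ) + 1 ∧ ¬ d ∣ 6 * (n : ℤ) - 1 := by
    intro d hd1 hdM
    obtain ⟨m, rfl⟩ : ∃ m : ℕ, d = m := ⟨d.toNat, by omega⟩
    have hm : m ≠ 1 := by omega
    obtain ⟨p, hp, hpm⟩ := Nat.exists_prime_and_dvd hm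
    have hpM : p ≤ 6 * M + 1 := by
      have h1 := Nat.le_of_dvd (by omega) hpm
      omega
    obtain ⟨h1, h2⟩ := h p hp hpM
    constructor
    · intro h3
      apply h1
      have h4 : (p : ℤ) ∣ ((6 * n + 1 : ℕ) : ℤ) := by
        push_cast
        exact (Int.natCast_dvd_natCast.2 hpm).trans h3
      exact_mod_cast h4
    · intro h3
      rcases Nat.eq_zero_or_pos n with h0 | h0
      · subst h0
        have h4 : (p : ℤ) ∣ 6 * ((0 : ℕ) : ℤ) - 1 := (Int.natCast_dvd_natCast.2 hpm).trans h3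
        have h5 : (p : ℤ) ∣ 1 := by
          have := dvd_neg.2 h4
          simpa using this
        have h6 : p ∣ 1 := by exact_mod_cast h5
        exact hp.one_lt.ne' (Nat.dvd_one.1 h6)
      · apply h2
        have h4 : (p : ℤ) ∣ ((6 * n - 1 : ℕ) : ℤ) := by
          have e : ((6 * n - 1 : ℕ) : ℤ) = 6 * (n : ℤ) - 1 := by
            push_cast [Nat.cast_sub (show 1 ≤ 6 * n by omega)]
            ring
          rw [e]
          exact (Int.natCast_dvd_natCast.2 hpm).trans h3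
        exact_mod_cast h4
  have hx' : (1 : ℤ) ≤ x := by exact_mod_cast hx
  have hy' : (1 : ℤ) ≤ y := by exact_mod_cast hy
  have hyM' : (y : ℤ) ≤ M := by exact_mod_cast hyM
  refine ⟨fun e => ?_, fun e => ?_, fun e => ?_, fun e => ?_⟩
  · exact (key (6 * y + 1) (by linarith) (by linarith)).1 ⟨6 * x + 1, by rw [e]; ring⟩
  · exact (key (6 * y - 1) (by linarith) (by linarith)).1 ⟨6 * x - 1, by rw [e]; ring⟩
  · exact (key (6 * y + 1) (by linarith) (by linarith)).2 ⟨6 * x - 1, by rw [e]; ring⟩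
  · exact (key (6 * y - 1) (by linarith) (by linarith)).2 ⟨6 * x + 1, by rw [e]; ring⟩

end Pool.Agent.Y887.TD
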