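import Mathlib
import Pool.Agent.Y887.TD.SysFundU

/-!
Systems of linear forms: basic facts for the sieve.
-/

set_option autoImplicit false

namespace Pool.Agent.Y887.TD

open Finset Pool.Agent.H373R2.T7

variable {ι : Type} [Fintype ι]

/-- `p` divides the value of some form at `n` -/
def QF (A B : ι → ℕ) (p n : ℕ) : Prop := ∃ h, p ∣ A h * n + B h

theorem dvd_mod_iff (a b p n : ℕ) : p ∣ a * n + b ↔ p ∣ a * (n % p) + b := by
  have h : a * n + b ≡ a * (n % p) + b [MOD p] :=
    Nat.ModEq.add_right _ (Nat.ModEq.mul_left _ (Nat.mod_modEq n p).symm)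
  rw [Nat.dvd_iff_mod_eq_zero, Nat.dvd_iff_mod_eq_zero, h]

theorem root_unique {a b p m n : ℕ} (hp : p.Prime) (hab : Nat.Coprime a b) (hm : p ∣ a * m + b)
    (hn : p ∣ a * n + b) : m % p = n % p := by
  have hpa : ¬ p ∣ a := by
    intro h
    have h1 : p ∣ b := (Nat.dvd_add_right (h.mul_right m)).1 hm
    exact hp.one_lt.ne' (Nat.dvd_one.1 (hab ▸ Nat.dvd_gcd h h1))
  have h1 : a * m + b ≡ a * n + b [MOD p] :=
    ((Nat.modEq_zero_iff_dvd).2 hm).trans ((Nat.modEq_zero_iff_dvd).2 hn).symm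
  have h2 : a * m ≡ a * n [MOD p] := Nat.ModEq.add_right_cancel' b h1
  exact Nat.ModEq.cancel_left_of_coprime ((Nat.Prime.coprime_iff_not_dvd hp).2 hpa) h2

theorem perQF (A B : ι → ℕ) (hAB : ∀ h, Nat.Coprime (A h) (B h)) :
    PerB (QF A B) (Fintype.card ι) := by
  classical
  refine ⟨fun p n => ?_, fun p hp => ?_⟩
  · exact exists_congr fun h => dvd_mod_iff _ _ _ _
  · unfold nuB
    calc ((range p).filter (fun r => QF A B p r)).card
        ≤ ((univ : Finset ι).biUnion fun h => (range p).filter (fun r => p ∣ A h * r + B h)).card := by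
          apply card_le_card
          intro r hr
          rw [mem_filter] at hr
          obtain ⟨h1, h, h2⟩ := hr
          exact mem_biUnion.2 ⟨h, mem_univ _, mem_filter.2 ⟨h1, h2⟩⟩
      _ ≤ ∑ h : ι, ((range p).filter (fun r => p ∣ A h * r + B h)).card := card_biUnion_le
      _ ≤ ∑ _h : ι, 1 := by
          apply sum_le_sum
          intro h _
          rw [card_le_one]
          intro r hr s hs
          rw [mem_filter, mem_range] at hr hs
          have := root_unique hp (hAB h) hr.2 hs.2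
          rwa [Nat.mod_eq_of_lt hr.1, Nat.mod_eq_of_lt hs.1] at this
      _ = _ := by simp

theorem one_sub_pow_le {κ p : ℝ} {n : ℕ} (hn : (n : ℝ) = 2 * κ) (hκ : 0 ≤ κ) (hp : 1 ≤ p)
    (hpk : 2 * κ ≤ p) : (1 - 1 / p) ^ n ≤ 1 - κ / p := by
  have hp0 : 0 < p := by linarith
  have h0 : 0 ≤ 1 - 1 / p := by
    have : 1 / p ≤ 1 := by rw [div_le_one hp0]; exact hp
    linarith
  have h1 : 1 - 1 / p ≤ Real.exp (-(1 / p)) := by
    have := Real.add_one_le_exp (-(1 / p))
    linarith
  have h2 : (1 - 1 / p) ^ n ≤ Real.exp (-(1 / p)) ^ n := pow_le_pow_left₀ h0 h1 n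
  rw [← Real.exp_nat_mul, hn] at h2
  set w := κ / p with hw
  have hw0 : 0 ≤ w := by positivity
  have hw1 : w ≤ 1 / 2 := by
    rw [hw, div_le_iff₀ hp0]; linarith
  have e : 2 * κ * -(1 / p) = -(2 * w) := by rw [hw]; ring
  rw [e, Real.exp_neg] at h2
  refine h2.trans ?_
  have h3 := Real.add_one_le_exp (2 * w)
  have h4 : (Real.exp (2 * w))⁻¹ ≤ (2 * w + 1)⁻¹ := inv_anti₀ (by linarith) h3
  refine h4.trans ?_
  rw [inv_le_iff_one_le_mul₀ (by linarith)]
  nlinarith

theorem V_low (κ : ℕ) : ∃ C N0 : ℕ, ∀ y : ℕ, N0 ≤ y → ∀ Q : ℕ → ℕ → Prop, PerB Q κ →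
    (∀ p, p.Prime → p ≤ 2 * κ → nuB Q p = 0) →
    1 / Real.log y ^ C ≤ ∏ p ∈ pz y, (1 - (nuB Q p : ℝ) / p) := by
  obtain ⟨C, N0, h⟩ := Vz_low
  refine ⟨C * (2 * κ), max N0 3, fun y hy Q hQ h0 => ?_⟩
  have h1 := h y ((le_max_left _ _).trans hy)
  have hy3 : 3 ≤ y := (le_max_right _ _).trans hy
  have hlog : 0 < Real.log y := Real.log_pos (by
    have : (3 : ℝ) ≤ y := by exact_mod_cast hy3
    linarith)
  have h2 : 1 / Real.log y ^ (C * (2 * κ)) = (1 / Real.log y ^ C) ^ (2 * κ) := by
    rw [div_pow, one_pow, pow_mul]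
  rw [h2]
  calc (1 / Real.log y ^ C) ^ (2 * κ) ≤ (Vz y) ^ (2 * κ) :=
        pow_le_pow_left₀ (by positivity) h1 _
    _ = ∏ p ∈ pz y, (1 - 1 / (p : ℝ)) ^ (2 * κ) := by
        unfold Vz
        rw [prod_pow]
    _ ≤ _ := by
        apply prod_le_prod
        · intro p hp
          have hp1 : (1 : ℝ) ≤ p := by exact_mod_cast (mem_pz.1 hp).2.one_lt.le
          have : 1 / (p : ℝ) ≤ 1 := by rw [div_le_one (by linarith)]; exact hp1
          exact pow_nonneg (by linarith) _
        · intro p hp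
          have hpp := (mem_pz.1 hp).2
          have hp1 : (1 : ℝ) ≤ p := by exact_mod_cast hpp.one_lt.le
          rcases Nat.lt_or_ge (2 * κ) p with hlt | hge
          · have h3 : (nuB Q p : ℝ) ≤ κ := by exact_mod_cast hQ.few p hpp
            have h4 : (1 - 1 / (p : ℝ)) ^ (2 * κ) ≤ 1 - (κ : ℝ) / p :=
              one_sub_pow_le (by push_cast; ring) (Nat.cast_nonneg _) hp1 (by
                have : ((2 * κ : ℕ) : ℝ) ≤ p := by exact_mod_cast hlt.le
                push_cast at this
                exact this)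
            refine h4.trans ?_
            have : (nuB Q p : ℝ) / p ≤ κ / p := div_le_div_of_nonneg_right h3 (by linarith)
            linarith
          · rw [h0 p hpp hge]
            have h5 : 1 / (p : ℝ) ≤ 1 := by rw [div_le_one (by linarith)]; exact hp1
            have h6 : 0 ≤ 1 / (p : ℝ) := by positivity
            have : (1 - 1 / (p : ℝ)) ^ (2 * κ) ≤ 1 := pow_le_one₀ (by linarith) (by linarith)
            simpa using this

/-- the system seen from the progression `q n + r`, restricted to primes at most `y` -/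
def QS (A B : ι → ℕ) (y q r : ℕ) (p n : ℕ) : Prop := p ≤ y ∧ QF A B p (q * n + r)

theorem nuB_QS (A B : ι → ℕ) {y q r p : ℕ} (hp : p.Prime) (hq : q.Prime) (hpy : p ≤ y)
    (hyq : y < q) : nuB (QS A B y q r) p = nuB (QF A B) p := by
  classical
  unfold nuB
  have : Fact p.Prime := ⟨hp⟩
  have hpq : ((q : ℕ) : ZMod p) ≠ 0 := by
    intro h
    have h1 : p ∣ q := (ZMod.natCast_eq_zero_iff q p).1 h
    have := (Nat.prime_dvd_prime_iff_eq hp hq).1 h1
    omega
  have hper : ∀ n, QF A B p n ↔ QF A B p (n % p) := fun n =>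
    exists_congr fun h => dvd_mod_iff _ _ _ _
  apply card_bij (fun n _ => (q * n + r) % p)
  · intro n hn
    rw [mem_filter, mem_range] at hn ⊢
    exact ⟨Nat.mod_lt _ hp.pos, (hper _).1 hn.2.2⟩
  · intro n hn m hm hnm
    rw [mem_filter, mem_range] at hn hm
    have h1 : q * n + r ≡ q * m + r [MOD p] := hnm
    have h2 := Nat.ModEq.add_right_cancel' r h1
    have h3 : n ≡ m [MOD p] := Nat.ModEq.cancel_left_of_coprime
      ((Nat.coprime_primes hp hq).2 (by omega)) h2
    have h4 : n % p = m % p := h3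
    rwa [Nat.mod_eq_of_lt hn.1, Nat.mod_eq_of_lt hm.1] at h4
  · intro m hm
    rw [mem_filter, mem_range] at hm
    have hv : ((q * (((m : ZMod p) - r) * (q : ZMod p)⁻¹).val + r : ℕ) : ZMod p) = m := by
      push_cast
      rw [ZMod.natCast_zmod_val]
      field_simp
      ring
    have hv2 : (q * (((m : ZMod p) - r) * (q : ZMod p)⁻¹).val + r) % p = m := by
      have h1 := (ZMod.natCast_eq_natCast_iff' _ _ _).1 hv
      rwa [Nat.mod_eq_of_lt hm.1] at h1
    refine ⟨(((m : ZMod p) - r) * (q : ZMod p)⁻¹).val, ?_, hv2⟩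
    rw [mem_filter, mem_range]
    refine ⟨ZMod.val_lt _, hpy, (hper _).2 ?_⟩
    rw [hv2]
    exact hm.2

theorem perQS (A B : ι → ℕ) (hAB : ∀ h, Nat.Coprime (A h) (B h)) {y q r : ℕ} (hq : q.Prime)
    (hyq : y < q) : PerB (QS A B y q r) (Fintype.card ι) := by
  classical
  refine ⟨fun p n => ?_, fun p hp => ?_⟩
  · unfold QS
    apply and_congr Iff.rfl
    have hper : ∀ n, QF A B p n ↔ QF A B p (n % p) := fun n =>
      exists_congr fun h => dvd_mod_iff _ _ _ _
    rw [hper, hper (q * (n % p) + r)]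
    have : (q * n + r) % p = (q * (n % p) + r) % p :=
      Nat.ModEq.add_right _ (Nat.ModEq.mul_left _ (Nat.mod_modEq n p).symm)
    rw [this]
  · rcases Nat.lt_or_ge y p with h | h
    · have : nuB (QS A B y q r) p = 0 := by
        unfold nuB
        rw [card_eq_zero, filter_eq_empty_iff]
        intro n _ hn
        have := hn.1
        omega
      rw [this]
      exact Nat.zero_le _
    · rw [nuB_QS A B hp hq h hyq]
      exact (perQF A B hAB).few p hp

open Classical in
/-- the rough arguments for which the form `h` is divisible by `q` -/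
theorem count_q (A B : ι → ℕ) (hAB : ∀ h, Nat.Coprime (A h) (B h)) {y q : ℕ} (hq : q.Prime)
    (X : ℕ) (h : ι) : ∃ r : ℕ,
    ((Icc 1 X).filter (fun m => (∀ p ∈ pz y, ¬ QF A B p m) ∧ q ∣ A h * m + B h)).card ≤
      1 + ((Icc 1 (X / q)).filter (fun n => ∀ p ∈ pz y, ¬ QS A B y q r p n)).card := by
  set W := (Icc 1 X).filter (fun m => (∀ p ∈ pz y, ¬ QF A B p m) ∧ q ∣ A h * m + B h) with hW
  rcases W.eq_empty_or_nonempty with he | ⟨m0, hm0⟩
  · exact ⟨0, by rw [he]; simp⟩
  refine ⟨m0 % q, ?_⟩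
  rw [hW, mem_filter] at hm0
  have hmod : ∀ m ∈ W, m = q * (m / q) + m0 % q := by
    intro m hm
    rw [hW, mem_filter] at hm
    rw [← root_unique hq (hAB h) hm.2.2 hm0.2.2]
    exact (Nat.div_add_mod m q).symm
  calc W.card ≤ (insert 0 ((Icc 1 (X / q)).filter
        (fun n => ∀ p ∈ pz y, ¬ QS A B y q (m0 % q) p n))).card := by
        apply card_le_card_of_injOn (fun m => m / q)
        · intro m hm
          have h1 := hmod m hm
          rw [mem_coe, hW, mem_filter, mem_Icc] at hm
          rw [mem_coe, mem_insert]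
          rcases Nat.eq_zero_or_pos (m / q) with h0 | h0
          · exact Or.inl h0
          · right
            rw [mem_filter, mem_Icc]
            refine ⟨⟨h0, Nat.div_le_div_right hm.1.2⟩, fun p hp hQ => ?_⟩
            apply hm.2.1 p hp
            have := hQ.2
            rwa [← h1] at this
        · intro m hm n hn hmn
          have h1 := hmod m hm
          have h2 := hmod n hn
          simp only at hmn
          rw [h1, h2, hmn]
    _ ≤ _ := by
        rw [add_comm]
        exact card_insert_le _ _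

end Pool.Agent.Y887.TD
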