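import Mathlib
import Pool.Agent.Y887.TD.SieveA

/-!
Auxiliary counting lemmas.
-/

set_option autoImplicit false

namespace Pool.Agent.Y887.TD

open Finset Pool.Agent.H373R2.T7 Pool.Agent.Helper112.LP

theorem sum_biUnion_le_nn (s : Finset ℕ) (t : ℕ → Finset ℕ) (f : ℕ → ℝ) (hf : ∀ x, 0 ≤ f x) :
    ∑ x ∈ s.biUnion t, f x ≤ ∑ i ∈ s, ∑ x ∈ t i, f x := by
  classical
  induction s using Finset.induction_on with
  | empty => simp
  | insert a s ha ih =>
    rw [biUnion_insert, sum_insert ha]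
    have h1 := sum_union_inter (s₁ := t a) (s₂ := s.biUnion t) (f := f)
    have h2 : 0 ≤ ∑ x ∈ t a ∩ s.biUnion t, f x := sum_nonneg fun x _ => hf x
    linarith

/-- the sum of the reciprocals of the primes between `2 ^ 2 ^ J` and `2 ^ 2 ^ (J + n)` -/
theorem sum_recip : ∃ L : ℕ, ∀ (J n : ℕ) (P : Finset ℕ),
    (∀ q ∈ P, q.Prime ∧ 2 ^ 2 ^ J < q ∧ q < 2 ^ 2 ^ (J + n)) →
    ∑ q ∈ P, (1 : ℝ) / q ≤ L * n := by
  classical
  obtain ⟨C0, hC0, hM⟩ := mertens_group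
  obtain ⟨L, hL⟩ := exists_nat_ge (1 + C0)
  refine ⟨L, fun J n P hP => ?_⟩
  have hG : ∀ j, 1 ≤ j → ∑ l ∈ Gj j, (1 : ℝ) / l ≤ L := by
    intro j hj
    have h1 := (abs_le.1 (hM j hj)).2
    have h2 : C0 / 2 ^ j ≤ C0 := div_le_self hC0.le (one_le_pow₀ (by norm_num))
    have h3 : Real.log 2 ≤ 1 := by have := Real.log_two_lt_d9; linarith
    linarith
  have hsub : P ⊆ (Ioc J (J + n)).biUnion (fun j => Gj j) := by
    intro q hq
    obtain ⟨h1, h2, h3⟩ := hP q hq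
    have hex : ∃ j, q < 2 ^ 2 ^ j := ⟨_, h3⟩
    set j := Nat.find hex with hj
    have h4 : q < 2 ^ 2 ^ j := Nat.find_spec hex
    have h5 : j ≤ J + n := Nat.find_min' hex h3
    have h6 : J < j := by
      by_contra h
      have h7 : 2 ^ 2 ^ j ≤ 2 ^ 2 ^ J := Nat.pow_le_pow_right (by norm_num)
        (Nat.pow_le_pow_right (by norm_num) (by omega))
      omega
    have h7 : 2 ^ 2 ^ (j - 1) ≤ q := by
      by_contra h
      have := Nat.find_min hex (m := j - 1) (by omega)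
      omega
    rw [mem_biUnion]
    refine ⟨j, mem_Ioc.2 ⟨h6, h5⟩, ?_⟩
    unfold Gj
    rw [mem_filter, mem_Ico]
    exact ⟨⟨h7, h4⟩, h1⟩
  calc ∑ q ∈ P, (1 : ℝ) / q ≤ ∑ q ∈ (Ioc J (J + n)).biUnion (fun j => Gj j), (1 : ℝ) / q :=
        sum_le_sum_of_subset_of_nonneg hsub (fun _ _ _ => by positivity)
    _ ≤ ∑ j ∈ Ioc J (J + n), ∑ q ∈ Gj j, (1 : ℝ) / q := by
        exact sum_biUnion_le_nn _ _ _ (fun x => by positivity)
    _ ≤ ∑ _j ∈ Ioc J (J + n), (L : ℝ) := sum_le_sum fun j hj => hG j (by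
        have := mem_Ioc.1 hj
        omega)
    _ = L * n := by
        rw [sum_const, nsmul_eq_mul, Nat.card_Ioc, Nat.add_sub_cancel_left]
        ring

/-- few solutions of `q ^ 2 ∣ a m + b` -/
theorem sq_count {a b q : ℕ} (hq : q.Prime) (hab : Nat.Coprime a b) (X : ℕ) :
    ((Icc 1 X).filter (fun m => q ^ 2 ∣ a * m + b)).card ≤ X / q ^ 2 + 1 := by
  classical
  set W := (Icc 1 X).filter (fun m => q ^ 2 ∣ a * m + b) with hW
  have hmod : ∀ m ∈ W, ∀ n ∈ W, m % q ^ 2 = n % q ^ 2 := by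
    intro m hm n hn
    rw [hW, mem_filter] at hm hn
    have hqa : ¬ q ∣ a := by
      intro h
      have h0 : q ∣ a * m + b := (dvd_pow_self q (by norm_num)).trans hm.2
      have h1 : q ∣ b := (Nat.dvd_add_right (h.mul_right m)).1 h0
      exact hq.one_lt.ne' (Nat.dvd_one.1 (hab ▸ Nat.dvd_gcd h h1))
    have h1 : a * m + b ≡ a * n + b [MOD q ^ 2] :=
      ((Nat.modEq_zero_iff_dvd).2 hm.2).trans ((Nat.modEq_zero_iff_dvd).2 hn.2).symm
    have h2 : a * m ≡ a * n [MOD q ^ 2] := Nat.ModEq.add_right_cancel' b h1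
    exact Nat.ModEq.cancel_left_of_coprime
      (Nat.Coprime.pow_left 2 ((Nat.Prime.coprime_iff_not_dvd hq).2 hqa)) h2
  calc W.card ≤ (range (X / q ^ 2 + 1)).card := by
        apply card_le_card_of_injOn (fun m => m / q ^ 2)
        · intro m hm
          rw [mem_coe, hW, mem_filter, mem_Icc] at hm
          rw [mem_coe, mem_range]
          exact Nat.lt_succ_of_le (Nat.div_le_div_right hm.1.2)
        · intro m hm n hn hmn
          simp only at hmn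
          rw [← Nat.div_add_mod m (q ^ 2), ← Nat.div_add_mod n (q ^ 2), hmn, hmod m hm n hn]
    _ = _ := card_range _

theorem few_large {n X : ℕ} (hn : n ≠ 0) (hX : n ^ 2 ≤ X ^ 3) :
    (n.primeFactors.filter (fun q => Nat.sqrt X < q)).card ≤ 2 := by
  classical
  by_contra hcon
  push Not at hcon
  set U := n.primeFactors.filter (fun q => Nat.sqrt X < q) with hU
  set s := Nat.sqrt X with hs
  have h1 : (s + 1) ^ U.card ≤ ∏ q ∈ U, q := pow_card_le_prod _ _ _ (fun q hq => by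
    rw [hU, mem_filter] at hq
    exact hq.2)
  have h2 : ∏ q ∈ U, q ≤ ∏ q ∈ n.primeFactors, q :=
    prod_le_prod_of_subset_of_one_le' (filter_subset _ _)
      (fun q hq _ => (Nat.prime_of_mem_primeFactors hq).one_lt.le)
  have h3 : ∏ q ∈ n.primeFactors, q ≤ n :=
    Nat.le_of_dvd (Nat.pos_of_ne_zero hn) (Nat.prod_primeFactors_dvd n)
  have h4 : (s + 1) ^ 3 ≤ (s + 1) ^ U.card := Nat.pow_le_pow_right (Nat.succ_pos _) hcon
  have h5 : (s + 1) ^ 3 ≤ n := by omega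
  have h6 : X < (s + 1) ^ 2 := by
    rw [pow_two]
    exact Nat.lt_succ_sqrt X
  have h7 : X ^ 3 < ((s + 1) ^ 2) ^ 3 := Nat.pow_lt_pow_left h6 (by norm_num)
  have h8 : ((s + 1) ^ 3) ^ 2 ≤ n ^ 2 := Nat.pow_le_pow_left h5 2
  have h9 : ((s + 1) ^ 2) ^ 3 = ((s + 1) ^ 3) ^ 2 := by ring
  omega

/-- a rough number has only large prime factors -/
theorem rough_gt {ι : Type} {A B : ι → ℕ} {y m q : ℕ} (hr : ∀ p ∈ pz y, ¬ QF A B p m) (h : ι)
    (hq : q.Prime) (hd : q ∣ A h * m + B h) : y < q := by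
  by_contra hle
  exact hr q (mem_pz.2 ⟨by omega, hq⟩) ⟨h, hd⟩

variable {ι : Type} [Fintype ι]

open Classical in
/-- the arguments with a value that is not squarefree -/
theorem nonsq_count {A B : ι → ℕ} (hAB : ∀ h, Nat.Coprime (A h) (B h)) (hB : ∀ h, 1 ≤ B h) {y : ℕ}
    (hy : 1 ≤ y)
    (X G : ℕ) (hG : ∀ h, ∀ m ≤ X, A h * m + B h ≤ G ^ 2) (hyG : y ≤ G) :
    (((Icc 1 X).filter (fun m => (∀ p ∈ pz y, ¬ QF A B p m) ∧
      ¬ ∀ h, Squarefree (A h * m + B h))).card : ℝ) ≤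
      Fintype.card ι * ((X : ℝ) / y + G) := by
  have hsub : (Icc 1 X).filter (fun m => (∀ p ∈ pz y, ¬ QF A B p m) ∧
      ¬ ∀ h, Squarefree (A h * m + B h)) ⊆
      (univ : Finset ι).biUnion fun h => ((Ioc y G).filter Nat.Prime).biUnion fun q =>
        (Icc 1 X).filter (fun m => q ^ 2 ∣ A h * m + B h) := by
    intro m hm
    rw [mem_filter, mem_Icc] at hm
    obtain ⟨hm1, hm2, hm3⟩ := hm
    push Not at hm3
    obtain ⟨h, hh⟩ := hm3
    rw [Nat.squarefree_iff_prime_squarefree] at hh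
    push Not at hh
    obtain ⟨q, hq, hqq⟩ := hh
    rw [mem_biUnion]
    refine ⟨h, mem_univ _, ?_⟩
    rw [mem_biUnion]
    refine ⟨q, ?_, ?_⟩
    · rw [mem_filter, mem_Ioc]
      refine ⟨⟨rough_gt hm2 h hq ((dvd_mul_right q q).trans hqq), ?_⟩, hq⟩
      have h1 : q * q ≤ A h * m + B h := Nat.le_of_dvd (by have := hB h; omega) hqq
      have h2 := hG h m hm1.2
      have h3 : q * q ≤ G * G := by rw [← pow_two G]; omega
      exact Nat.mul_self_le_mul_self_iff.1 h3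
    · rw [mem_filter, mem_Icc]
      exact ⟨hm1, by rw [pow_two]; exact hqq⟩
  have h1 : (((Icc 1 X).filter (fun m => (∀ p ∈ pz y, ¬ QF A B p m) ∧
      ¬ ∀ h, Squarefree (A h * m + B h))).card : ℝ) ≤
      ∑ _h : ι, ∑ q ∈ (Ioc y G).filter Nat.Prime, ((X : ℝ) * ((q : ℝ) ^ 2)⁻¹ + 1) := by
    have h2 : ((Icc 1 X).filter (fun m => (∀ p ∈ pz y, ¬ QF A B p m) ∧
      ¬ ∀ h, Squarefree (A h * m + B h))).card ≤
      ∑ h : ι, ∑ q ∈ (Ioc y G).filter Nat.Prime, (X / q ^ 2 + 1) := by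
      refine (card_le_card hsub).trans (card_biUnion_le.trans (sum_le_sum fun h _ => ?_))
      refine card_biUnion_le.trans (sum_le_sum fun q hq => ?_)
      exact sq_count (mem_filter.1 hq).2 (hAB h) X
    calc _ ≤ ((∑ h : ι, ∑ q ∈ (Ioc y G).filter Nat.Prime, (X / q ^ 2 + 1) : ℕ) : ℝ) := by
          exact_mod_cast h2
      _ ≤ _ := by
          push_cast
          refine sum_le_sum fun h _ => sum_le_sum fun q _ => ?_
          have : ((X / q ^ 2 : ℕ) : ℝ) ≤ (X : ℝ) / ((q ^ 2 : ℕ) : ℝ) := Nat.cast_div_le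
          push_cast at this
          rw [← div_eq_mul_inv]
          linarith
  refine h1.trans ?_
  rw [sum_const, card_univ, nsmul_eq_mul]
  apply mul_le_mul_of_nonneg_left _ (Nat.cast_nonneg _)
  rw [sum_add_distrib, ← mul_sum]
  have h3 : ∑ q ∈ (Ioc y G).filter Nat.Prime, ((q : ℝ) ^ 2)⁻¹ ≤ (y : ℝ)⁻¹ := by
    calc ∑ q ∈ (Ioc y G).filter Nat.Prime, ((q : ℝ) ^ 2)⁻¹ ≤ ∑ q ∈ Ioc y G, ((q : ℝ) ^ 2)⁻¹ :=
          sum_le_sum_of_subset_of_nonneg (filter_subset _ _) (fun _ _ _ => by positivity)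
      _ ≤ (y : ℝ)⁻¹ - (G : ℝ)⁻¹ := sum_Ioc_inv_sq_le_sub (by omega) hyG
      _ ≤ (y : ℝ)⁻¹ := by
          have : 0 ≤ (G : ℝ)⁻¹ := by positivity
          linarith
  have h4 : ∑ _q ∈ (Ioc y G).filter Nat.Prime, (1 : ℝ) ≤ G := by
    rw [sum_const, nsmul_eq_mul, mul_one]
    have : ((Ioc y G).filter Nat.Prime).card ≤ G := (card_filter_le _ _).trans (by
      rw [Nat.card_Ioc]; omega)
    exact_mod_cast this
  have h5 : (X : ℝ) * ∑ q ∈ (Ioc y G).filter Nat.Prime, ((q : ℝ) ^ 2)⁻¹ ≤ X * (y : ℝ)⁻¹ :=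
    mul_le_mul_of_nonneg_left h3 (Nat.cast_nonneg _)
  rw [div_eq_mul_inv]
  linarith

end Pool.Agent.Y887.TD
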