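import Mathlib
import Pool.Agent.Y887.TD.SieveC

/-!
The sieve theorem, with an average number of prime factors of logarithmic size in the number of
forms.
-/

set_option autoImplicit false

namespace Pool.Agent.Y887.TD

open Finset Filter Pool.Agent.H373R2.T7

theorem two_log_le (c κ : ℕ) (hκ : 1 ≤ κ) (hc : 1 ≤ c) :
    Nat.log 2 (c * (κ * κ)) ≤ Nat.log 2 c + 2 * Nat.log 2 κ + 2 := by
  have h1 : c < 2 ^ (Nat.log 2 c + 1) := Nat.lt_pow_succ_log_self (by norm_num) c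
  have h2 : κ < 2 ^ (Nat.log 2 κ + 1) := Nat.lt_pow_succ_log_self (by norm_num) κ
  have h3 : c * (κ * κ) < 2 ^ (Nat.log 2 c + 1) * (2 ^ (Nat.log 2 κ + 1) * 2 ^ (Nat.log 2 κ + 1)) := by
    have h4 : κ * κ < 2 ^ (Nat.log 2 κ + 1) * 2 ^ (Nat.log 2 κ + 1) := Nat.mul_lt_mul'' h2 h2
    exact Nat.mul_lt_mul'' h1 h4
  have h5 : 2 ^ (Nat.log 2 c + 1) * (2 ^ (Nat.log 2 κ + 1) * 2 ^ (Nat.log 2 κ + 1)) =
      2 ^ (Nat.log 2 c + 2 * Nat.log 2 κ + 3) := by
    rw [← pow_add, ← pow_add]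
    congr 1
    ring
  rw [h5] at h3
  have hne : c * (κ * κ) ≠ 0 := by positivity
  have := (Nat.log_lt_iff_lt_pow (by norm_num) hne).2 h3
  omega

open Classical in
theorem sieve_main : ∃ C1 : ℕ, 1 ≤ C1 ∧ ∀ (ι : Type) [Fintype ι], 1 ≤ Fintype.card ι →
    ∀ (A B : ι → ℕ), (∀ h, 1 ≤ B h) → (∀ h, Nat.Coprime (A h) (B h)) →
    (∀ p : ℕ, p.Prime → p ≤ 2 * Fintype.card ι → ∀ h, p ∣ A h) →
    ∃ K : ℕ, ∀ᶠ X : ℕ in atTop, (X : ℝ) / Real.log X ^ K ≤
      (((Icc 1 X).filter (fun m => (∀ h, Squarefree (A h * m + B h)) ∧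
        ∑ h, (A h * m + B h).primeFactors.card ≤
          Fintype.card ι * (C1 * (Nat.log 2 (Fintype.card ι) + 1)))).card : ℝ) := by
  obtain ⟨N1, hN1⟩ := sysFundU
  obtain ⟨L, hL⟩ := sum_recip
  set c2 : ℕ := Nat.log 2 (64 * ((N1 + 12) * (N1 + 12))) with hc2
  refine ⟨5 * (L * (c2 + 4)) + 12, by omega, ?_⟩
  intro ι _ hκ A B hB hAB hsmall
  set κ : ℕ := Fintype.card ι with hκd
  obtain ⟨x0, hx0⟩ := hN1 κ hκ
  obtain ⟨C0, hC0⟩ : ∃ C0 : ℕ, C0 = N1 * κ + 2 * κ + 10 := ⟨_, rfl⟩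
  rw [← hC0] at hx0
  have hC01 : 1 ≤ C0 := by rw [hC0]; exact Nat.le_add_left _ _
  obtain ⟨K0, hK0⟩ : ∃ K0 : ℕ, K0 = 16 * (C0 * C0) := ⟨_, rfl⟩
  rw [← hK0] at hx0
  have hK01 : K0 ≠ 0 := by
    have h1 := Nat.mul_pos hC01 hC01
    rw [hK0]
    exact (Nat.mul_pos (by norm_num) h1).ne'
  have hC0le : C0 ≤ (N1 + 12) * κ := by
    rw [hC0]; nlinarith
  obtain ⟨K', N0, hV⟩ := V_low κ
  set t : ℕ := Nat.log 2 (64 * (C0 * C0)) + 1 with ht
  have ht4 : 4 * K0 ≤ 2 ^ t := by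
    have h0 : 64 * (C0 * C0) < 2 ^ t := Nat.lt_pow_succ_log_self (by norm_num) (64 * (C0 * C0))
    omega
  have htle : t ≤ c2 + 2 * Nat.log 2 κ + 3 := by
    have h1 : Nat.log 2 (64 * (C0 * C0)) ≤ Nat.log 2 (64 * ((N1 + 12) * (N1 + 12)) * (κ * κ)) := by
      apply Nat.log_mono_right
      calc 64 * (C0 * C0) ≤ 64 * (((N1 + 12) * κ) * ((N1 + 12) * κ)) :=
            Nat.mul_le_mul_left _ (Nat.mul_le_mul hC0le hC0le)
        _ = _ := by ring
    have h2 := two_log_le (64 * ((N1 + 12) * (N1 + 12))) κ hκ (by nlinarith)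
    omega
  have htle' : t + 1 ≤ (c2 + 4) * (Nat.log 2 κ + 1) := by
    clear hx0
    nlinarith
  set CF : ℕ := ∑ h, (A h + B h) with hCFd
  have hCF : ∀ h, A h + B h ≤ CF := fun h =>
    single_le_sum (f := fun h => A h + B h) (fun _ _ => Nat.zero_le _) (mem_univ h)
  -- the parameter
  set T : ℕ → ℕ := fun X => Nat.log 2 (Nat.log 2 X) with hT
  have hTt : Tendsto T atTop atTop := by
    have h1 : Tendsto (Nat.log 2) atTop atTop := by
      rw [tendsto_atTop]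
      intro b
      filter_upwards [eventually_ge_atTop (2 ^ b)] with n hn
      exact Nat.le_log_of_pow_le (by norm_num) hn
    exact h1.comp h1
  set Y : ℕ → ℕ := fun X => 2 ^ 2 ^ (T X - t) with hY
  have hYt : Tendsto Y atTop atTop := by
    rw [tendsto_atTop]
    intro b
    filter_upwards [hTt.eventually_ge_atTop (t + b)] with X hX
    have h1 : b ≤ T X - t := by omega
    calc b ≤ T X - t := h1
      _ ≤ 2 ^ (T X - t) := Nat.lt_two_pow_self.le
      _ ≤ 2 ^ 2 ^ (T X - t) := Nat.lt_two_pow_self.le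
  -- the error terms
  set Ce : ℝ := 16 * (κ * (2 * CF + 3)) with hCe
  have hlim : Tendsto (fun y : ℕ => Ce * Real.log y ^ K' / y) atTop (nhds 0) := by
    have h1 : Tendsto (fun x : ℝ => Real.log x ^ K' / x) atTop (nhds 0) := by
      have h2 := Real.isLittleO_pow_log_id_atTop (n := K')
      exact h2.tendsto_div_nhds_zero
    have h3 := (h1.comp tendsto_natCast_atTop_atTop).const_mul Ce
    rw [mul_zero] at h3
    refine h3.congr fun y => ?_
    simp only [Function.comp_apply]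
    ring
  refine ⟨K' + 1, ?_⟩
  have hlogX : Tendsto (fun X : ℕ => Real.log (X : ℝ)) atTop atTop :=
    Real.tendsto_log_atTop.comp tendsto_natCast_atTop_atTop
  filter_upwards [hTt.eventually_ge_atTop t, hYt.eventually_ge_atTop x0,
    hYt.eventually_ge_atTop N0, hYt.eventually_ge_atTop 3,
    hYt.eventually (hlim.eventually_lt_const (show (0 : ℝ) < 1 by norm_num)),
    eventually_ge_atTop (CF ^ 2), eventually_ge_atTop 4, hlogX.eventually_ge_atTop 4]
    with X hX1 hX2 hX3 hX4 hX5 hX6 hX7 hX8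
  obtain ⟨J, hJ⟩ : ∃ J : ℕ, J = T X - t := ⟨_, rfl⟩
  obtain ⟨y, hy⟩ : ∃ y : ℕ, y = Y X := ⟨_, rfl⟩
  have hyJ : y = 2 ^ 2 ^ J := by rw [hy, hJ]
  rw [← hy] at hX2 hX3 hX4 hX5
  have hXne : Nat.log 2 X ≠ 0 := by
    have : 0 < Nat.log 2 X := Nat.log_pos (by norm_num) (by omega)
    omega
  have hXlow : 2 ^ 2 ^ (T X) ≤ X := by
    calc 2 ^ 2 ^ (T X) ≤ 2 ^ (Nat.log 2 X) :=
          Nat.pow_le_pow_right (by norm_num) (Nat.pow_log_le_self 2 hXne)
      _ ≤ X := Nat.pow_log_le_self 2 (by omega)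
  have hXup : X < 2 ^ 2 ^ (J + (t + 1)) := by
    have h1 : X < 2 ^ (Nat.log 2 X + 1) := Nat.lt_pow_succ_log_self (by norm_num) X
    have h2 : Nat.log 2 X + 1 ≤ 2 ^ (T X + 1) := Nat.lt_pow_succ_log_self (by norm_num) _
    have h3 : J + (t + 1) = T X + 1 := by clear hyJ; omega
    rw [h3]
    exact h1.trans_le (Nat.pow_le_pow_right (by norm_num) h2)
  obtain ⟨x, hx⟩ : ∃ x : ℕ, x = y ^ K0 := ⟨_, rfl⟩
  have hyx : y ≤ x := by
    rw [hx]
    exact Nat.le_self_pow hK01 _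
  have hxX : x ^ 4 ≤ X := by
    calc x ^ 4 = 2 ^ (2 ^ J * (4 * K0)) := by
          rw [hx, hyJ, ← pow_mul, ← pow_mul]
          ring_nf
      _ ≤ 2 ^ (2 ^ J * 2 ^ t) := Nat.pow_le_pow_right (by norm_num) (Nat.mul_le_mul_left _ ht4)
      _ = 2 ^ 2 ^ (T X) := by
          rw [← pow_add]
          have h3 : J + t = T X := by clear hyJ hx hXup hXlow; omega
          rw [h3]
      _ ≤ X := hXlow
  obtain ⟨V, hVd⟩ : ∃ V : ℝ, V = ∏ p ∈ pz y, (1 - (nuB (QF A B) p : ℝ) / p) := ⟨_, rfl⟩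
  have hVl : 1 / Real.log y ^ K' ≤ V := by
    rw [hVd]
    apply hV y hX3 (QF A B) (perQF A B hAB)
    intro p hp hpκ
    unfold nuB
    rw [card_eq_zero, filter_eq_empty_iff]
    rintro r _ ⟨h, hd⟩
    have h1 := hsmall p hp hpκ h
    have h2 : p ∣ B h := (Nat.dvd_add_right (h1.mul_right r)).1 hd
    exact hp.one_lt.ne' (Nat.dvd_one.1 ((hAB h) ▸ Nat.dvd_gcd h1 h2))
  have hy3 : (3 : ℝ) ≤ y := by exact_mod_cast hX4
  have hlogy : 1 < Real.log y := by
    rw [Real.lt_log_iff_exp_lt (by linarith)]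
    have := Real.exp_one_lt_d9
    linarith
  have hlogyX : Real.log y ≤ Real.log X := by
    apply Real.log_le_log (by linarith)
    have : y ≤ X := by
      calc y ≤ x := hyx
        _ ≤ x ^ 4 := Nat.le_self_pow (by norm_num) _
        _ ≤ X := hxX
    exact_mod_cast this
  have hV0 : 0 ≤ V := le_trans (by positivity) hVl
  have hEV : 16 * ((Fintype.card ι : ℝ) * (2 * CF + 3)) / y ≤ V := by
    refine le_trans ?_ hVl
    rw [div_le_div_iff₀ (by linarith) (by positivity)]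
    have h1 : Ce * Real.log y ^ K' < 1 * y := by
      rwa [div_lt_iff₀ (by linarith)] at hX5
    rw [hCe] at h1
    linarith
  have hmain := core A B hB hAB hκ L (t + 1) J X x y CF ((5 * (L * (c2 + 4)) + 12) *
    (Nat.log 2 κ + 1)) V hL hyJ hyx hxX hXup hVd hV0
    (fun Q hQ X' => hx0 x y hX2 (le_of_eq hx.symm) Q hQ X') hCF hX6 hEV (by
      have h1 : t + 1 ≤ (c2 + 4) * (Nat.log 2 κ + 1) := htle'
      have h2 : L * (t + 1) ≤ L * ((c2 + 4) * (Nat.log 2 κ + 1)) := Nat.mul_le_mul_left _ h1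
      have h3 : 12 ≤ 12 * (Nat.log 2 κ + 1) := Nat.le_mul_of_pos_right _ (Nat.succ_pos _)
      calc 5 * (L * (t + 1)) + 12 ≤ 5 * (L * ((c2 + 4) * (Nat.log 2 κ + 1))) +
            12 * (Nat.log 2 κ + 1) := Nat.add_le_add (Nat.mul_le_mul_left _ h2) h3
        _ = _ := by ring)
  refine le_trans ?_ hmain
  have hXr : (4 : ℝ) ≤ X := by exact_mod_cast hX7
  calc (X : ℝ) / Real.log X ^ (K' + 1) ≤ X / (4 * Real.log y ^ K') := by
        apply div_le_div_of_nonneg_left (by linarith) (by positivity)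
        rw [pow_succ, mul_comm (Real.log X ^ K')]
        apply mul_le_mul hX8 (pow_le_pow_left₀ (by linarith) hlogyX _) (by positivity) (by linarith)
    _ = X * (1 / Real.log y ^ K') / 4 := by
        field_simp
    _ ≤ X * V / 4 := by
        have := mul_le_mul_of_nonneg_left hVl (show (0 : ℝ) ≤ X by linarith)
        linarith

end Pool.Agent.Y887.TD
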