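import Mathlib
import Pool.Agent.Y887.TD.Matrix
import Pool.Agent.Y887.TD.ConsB
import Pool.Agent.Y887.TD.SieveD
import Pool.Agent.Y887.TD.FormsTD
import Pool.Agent.Y887.TD.Rep

/-!
Assembly.
-/

set_option autoImplicit false

namespace Pool.Agent.Y887.TD

open Finset Filter

/-- the properties of the numbers `6 n - 1`, `6 n + 1` that are produced -/
def Good (a b Q K n : ℕ) : Prop :=
  (∀ p : ℕ, p.Prime → p ≤ Q → ¬ p ∣ 6 * n + 1 ∧ ¬ p ∣ 6 * n - 1) ∧ ¬ IsSquare (6 * n + 1) ∧
    (6 * n + 1).divisors.card ≤ K ∧ (6 * n - 1).divisors.card ≤ K ∧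
    b * (6 * n + 1).divisors.card = a * (6 * n - 1).divisors.card

theorem prod_sigma_pow {k : ℕ} (c : Fin k → Fin k → ℕ) (i j : Fin k) :
    ∏ y : (Σ p : Fin k × Fin k, Fin (c p.1 p.2)), (if y.1.1 = i ∧ y.1.2 = j then 2 else 1) =
      2 ^ (c i j) := by
  classical
  rw [Fintype.prod_sigma]
  rw [prod_eq_single (i, j)]
  · simp
  · rintro ⟨i', j'⟩ _ hne
    apply prod_eq_one
    intro m _
    rw [if_neg]
    rintro ⟨h1, h2⟩
    exact hne (Prod.ext h1 h2)
  · intro h
    exact absurd (mem_univ _) h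

theorem mod6_aux (q x n : ℕ) (hq : q % 6 = 1) (hn : n % 6 = 0) : (q * (x * n + 1)) % 6 = 1 := by
  obtain ⟨q', rfl⟩ : ∃ q', q = 6 * q' + 1 := ⟨q / 6, by omega⟩
  obtain ⟨n', rfl⟩ : ∃ n', n = 6 * n' := ⟨n / 6, by omega⟩
  have : (6 * q' + 1) * (x * (6 * n') + 1) = 6 * ((6 * q' + 1) * x * n' + q') + 1 := by ring
  omega

/-- few large terms -/
theorem few_big {k R1 : ℕ} (ω : Fin k → ℕ) (h : ∑ i, ω i ≤ (k + k) * R1) :
    3 * k ≤ 4 * (univ.filter (fun i => ω i ≤ 8 * R1)).card := by
  classical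
  have h1 := card_filter_add_card_filter_not (s := (univ : Finset (Fin k))) (fun i => ω i ≤ 8 * R1)
  rw [card_univ, Fintype.card_fin] at h1
  have h2 : (univ.filter (fun i => ¬ ω i ≤ 8 * R1)).card * (8 * R1 + 1) ≤ (k + k) * R1 := by
    calc (univ.filter (fun i => ¬ ω i ≤ 8 * R1)).card * (8 * R1 + 1) =
        ∑ _i ∈ univ.filter (fun i => ¬ ω i ≤ 8 * R1), (8 * R1 + 1) := by
          rw [sum_const, smul_eq_mul]
      _ ≤ ∑ i ∈ univ.filter (fun i => ¬ ω i ≤ 8 * R1), ω i := by
          apply sum_le_sum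
          intro i hi
          have := (mem_filter.1 hi).2
          omega
      _ ≤ ∑ i, ω i := sum_le_sum_of_subset (filter_subset _ _)
      _ ≤ _ := h
  set w := (univ.filter (fun i => ¬ ω i ≤ 8 * R1)).card with hw
  have h3 : 4 * w ≤ k := by
    by_contra hcon
    push Not at hcon
    have h4 : (k + 1) * (8 * R1 + 1) ≤ 4 * w * (8 * R1 + 1) := Nat.mul_le_mul_right _ hcon
    nlinarith
  omega

set_option maxHeartbeats 4000000 in
theorem pointwise (a b Q : ℕ) (ha : 1 ≤ a) (hb : 1 ≤ b) :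
    ∃ (k Cb K1 K2 : ℕ) (ν : Fin k → Fin k → ℕ → ℕ) (G : ℕ → Prop), 1 ≤ k ∧ 1 ≤ Cb ∧
      (∀ i j, Function.Injective (ν i j)) ∧
      (∀ i j m, 1 ≤ m → 1 ≤ ν i j m ∧ ν i j m ≤ Cb * m) ∧
      (∃ S : ℕ → Finset ℕ, (∀ X, ∀ m ∈ S X, 1 ≤ m ∧ m ≤ X ∧ G m) ∧
        ∀ᶠ X : ℕ in atTop, (X : ℝ) / Real.log X ^ K1 ≤ ((S X).card : ℝ)) ∧
      ∀ m, 1 ≤ m → G m → ∃ i j, Good a b Q K2 (ν i j m) := by
  classical
  obtain ⟨C1, hC1, hsieve⟩ := sieve_main
  obtain ⟨k, R, hk, hR, c, -, hco⟩ := coincidence (8 * C1) (by omega)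
  obtain ⟨x, z, g, X, Z, hxpos, hxinj, hzinj, hzx, hgpos, hgx, hsm, hmod, hX, hZ, hid⟩ :=
    construct (κ := Σ p : Fin k × Fin k, Fin (c p.1 p.2)) (fun y => y.1.1) (fun y => y.1.2)
      (Q + 3 + k) (by omega) (by omega)
  have hzpos : ∀ j, 0 < z j := by
    intro j
    have h1 := hzx j j
    have h2 := hgpos j j
    omega
  have hgz : ∀ i j, g i j ∣ z j := by
    intro i j
    rw [hzx i j]
    exact dvd_add (hgx i j) (dvd_mul_left _ _)
  -- the forms
  set cf : Fin k ⊕ Fin k → ℕ := Sum.elim x z with hcf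
  set e : Fin k ⊕ Fin k → ℕ := Sum.elim (fun i => a * X i - 1) (fun j => b * Z j * 2 ^ R - 1) with he
  have hcf1 : ∀ h, 1 ≤ cf h := by
    rintro (i | j)
    · exact hxpos i
    · exact hzpos j
  have hcfinj : Function.Injective cf := by
    rintro (i | i) (j | j) h
    · exact congrArg Sum.inl (hxinj h)
    · exfalso
      have h1 : x i = z j := h
      have h2 := hzx i j
      have h3 := hgpos i j
      omega
    · exfalso
      have h1 : z i = x j := h
      have h2 := hzx j i
      have h3 := hgpos j i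
      omega
    · exact congrArg Sum.inr (hzinj h)
  set T : ℕ := Q + 4 * k + 3 + ∑ h, cf h with hT
  have hcT : ∀ h, cf h < T := by
    intro h
    have := single_le_sum (f := cf) (fun _ _ => Nat.zero_le _) (mem_univ h)
    omega
  obtain ⟨n0, E, r, A, B, hE, hrp, hrT, hnE, hA, hB, hA1, hB1, hcop, hpA, hrA⟩ :=
    exists_forms cf hcf1 hcfinj e T hcT
  have hcard : Fintype.card (Fin k ⊕ Fin k) = k + k := by
    rw [Fintype.card_sum, Fintype.card_fin]
  obtain ⟨K1, hK1⟩ := hsieve (Fin k ⊕ Fin k) (by rw [hcard]; omega) A B hB1 hcop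
    (fun p hp hle h => hpA p hp (by rw [hcard] at hle; omega) h)
  set R1 : ℕ := C1 * (Nat.log 2 (2 * k) + 1) with hR1
  have hR8 : R = 8 * R1 := by rw [hR, hR1]; ring
  have h2k : k + k = 2 * k := by ring
  rw [hcard, h2k, ← hR1] at hK1
  -- the numbers produced
  set ν : Fin k → Fin k → ℕ → ℕ := fun i j m =>
    ((z j / g i j) * (x i * (n0 + E * m) + 1) - 1) / 6 with hν
  have h6 : ∀ m, (n0 + E * m) % 6 = 0 := by
    intro m
    obtain ⟨h1, h2⟩ := hnE 2 Nat.prime_two (by omega)
    obtain ⟨h3, h4⟩ := hnE 3 Nat.prime_three (by omega)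
    have h5 : 2 ∣ n0 + E * m := dvd_add h1 (h2.mul_right m)
    have h6 : 3 ∣ n0 + E * m := dvd_add h3 (h4.mul_right m)
    omega
  have hqz : ∀ i j, g i j * (z j / g i j) = z j := fun i j => Nat.mul_div_cancel' (hgz i j)
  have hqx : ∀ i j, g i j * (x i / g i j) = x i := fun i j => Nat.mul_div_cancel' (hgx i j)
  have hqq : ∀ i j, z j / g i j = x i / g i j + 2 := by
    intro i j
    have h1 := hqz i j
    have h2 := hqx i j
    have h3 := hzx i j
    have h4 : g i j * (z j / g i j) = g i j * (x i / g i j + 2) := by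
      rw [mul_add, h1, h2, h3]; ring
    exact Nat.eq_of_mul_eq_mul_left (hgpos i j) h4
  have hcross : ∀ i j, (z j / g i j) * x i = (x i / g i j) * z j := by
    intro i j
    have h1 := hqz i j
    have h2 := hqx i j
    calc (z j / g i j) * x i = (z j / g i j) * (g i j * (x i / g i j)) := by rw [h2]
      _ = (x i / g i j) * (g i j * (z j / g i j)) := by ring
      _ = _ := by rw [h1]
  have hU : ∀ i j m, 1 ≤ m → 6 * ν i j m + 1 = (z j / g i j) * (x i * (n0 + E * m) + 1) ∧
      6 * ν i j m - 1 = (x i / g i j) * (z j * (n0 + E * m) + 1) ∧ 1 ≤ ν i j m := by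
    intro i j m hm
    set n := n0 + E * m with hn
    have hn1 : 1 ≤ n := by
      have := Nat.mul_le_mul hE hm
      omega
    have hU6 : ((z j / g i j) * (x i * n + 1)) % 6 = 1 := mod6_aux _ _ _ (hmod i j) (h6 m)
    have hrel : (z j / g i j) * (x i * n + 1) = (x i / g i j) * (z j * n + 1) + 2 := by
      have h1 := hcross i j
      have h2 := hqq i j
      calc (z j / g i j) * (x i * n + 1) = ((z j / g i j) * x i) * n + z j / g i j := by ring
        _ = ((x i / g i j) * z j) * n + (x i / g i j + 2) := by rw [h1, ← h2]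
        _ = _ := by ring
    have hge : 2 ≤ (z j / g i j) * (x i * n + 1) := by
      have h1 := hqq i j
      calc 2 ≤ 2 * (x i * n + 1) := by omega
        _ ≤ (z j / g i j) * (x i * n + 1) :=
            Nat.mul_le_mul_right _ (by rw [h1]; exact Nat.le_add_left 2 _)
    have hνe : ν i j m = ((z j / g i j) * (x i * n + 1) - 1) / 6 := rfl
    rw [hνe]
    generalize (z j / g i j) * (x i * n + 1) = U at hU6 hrel hge ⊢
    generalize (x i / g i j) * (z j * n + 1) = U' at hrel ⊢
    omega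
  have hTpos : 1 ≤ T := by omega
  refine ⟨k, T * (T * (n0 + E) + 1), K1, T * (∑ h, (e h + 1)) * 2 ^ R, ν,
    fun m => (∀ h, Squarefree (A h * m + B h)) ∧
        ∑ h, (A h * m + B h).primeFactors.card ≤ 2 * k * R1, hk,
    Nat.mul_le_mul hTpos (Nat.succ_pos _), ?_, ?_, ⟨_, ?_, hK1⟩, ?_⟩
  · -- injectivity
    intro i j m m' h
    have key : ∀ m, 6 * ν i j m + 1 = (z j / g i j) * (x i * (n0 + E * m) + 1) := by
      intro m
      have hU6 : ((z j / g i j) * (x i * (n0 + E * m) + 1)) % 6 = 1 :=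
        mod6_aux _ _ _ (hmod i j) (h6 m)
      have hνe : ν i j m = ((z j / g i j) * (x i * (n0 + E * m) + 1) - 1) / 6 := rfl
      rw [hνe]
      generalize (z j / g i j) * (x i * (n0 + E * m) + 1) = U at hU6 ⊢
      omega
    have h1 := key m
    have h2 := key m'
    rw [h, h2] at h1
    have hq0 : 0 < z j / g i j := by rw [hqq i j]; exact Nat.succ_pos _
    have h3 := Nat.eq_of_mul_eq_mul_left hq0 h1
    have h4 : x i * (n0 + E * m') = x i * (n0 + E * m) := by omega
    have h5 := Nat.eq_of_mul_eq_mul_left (hxpos i) h4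
    have h6 : E * m = E * m' := by omega
    exact Nat.eq_of_mul_eq_mul_left (by omega) h6
  · intro i j m hm
    obtain ⟨h1, h2, h3⟩ := hU i j m hm
    refine ⟨h3, ?_⟩
    have h4 : z j / g i j ≤ T := (Nat.div_le_self _ _).trans (hcT (Sum.inr j)).le
    have h5 : x i ≤ T := (hcT (Sum.inl i)).le
    have h6 : n0 + E * m ≤ (n0 + E) * m := by nlinarith
    have h7 : x i * (n0 + E * m) + 1 ≤ (T * (n0 + E) + 1) * m := by
      have h8 : x i * (n0 + E * m) ≤ T * ((n0 + E) * m) := Nat.mul_le_mul h5 h6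
      nlinarith
    have h8 : (z j / g i j) * (x i * (n0 + E * m) + 1) ≤ T * ((T * (n0 + E) + 1) * m) :=
      Nat.mul_le_mul h4 h7
    have h9 : T * ((T * (n0 + E) + 1) * m) = T * (T * (n0 + E) + 1) * m := by ring
    omega
  · intro X' m hm
    rw [mem_filter, mem_Icc] at hm
    exact ⟨hm.1.1, hm.1.2, hm.2⟩
  · rintro m hm ⟨hsq, hsum⟩
    rw [Fintype.sum_sum_type] at hsum
    have hS := few_big (R1 := R1) (fun i => (A (Sum.inl i) * m + B (Sum.inl i)).primeFactors.card)
      (by rw [h2k]; omega)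
    have hS' := few_big (R1 := R1) (fun i => (A (Sum.inr i) * m + B (Sum.inr i)).primeFactors.card)
      (by rw [h2k]; omega)
    rw [← hR8] at hS hS'
    obtain ⟨i, hi, j, hj, hij⟩ := hco _ _
      (fun i => (A (Sum.inl i) * m + B (Sum.inl i)).primeFactors.card)
      (fun i => (A (Sum.inr i) * m + B (Sum.inr i)).primeFactors.card) hS hS'
      (fun i hi => (mem_filter.1 hi).2) (fun i hi => (mem_filter.1 hi).2)
    refine ⟨i, j, ?_⟩
    have hiR := (mem_filter.1 hi).2
    have hjR := (mem_filter.1 hj).2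
    obtain ⟨hU1, hU2, hU3⟩ := hU i j m hm
    -- the values of the forms
    have hval : ∀ h, cf h * (n0 + E * m) + 1 = r h ^ e h * (A h * m + B h) := by
      intro h
      have h1 := hA h
      have h2 := hB h
      calc cf h * (n0 + E * m) + 1 = (cf h * E) * m + (cf h * n0 + 1) := by ring
        _ = (A h * r h ^ e h) * m + B h * r h ^ e h := by rw [h1, h2]
        _ = _ := by ring
    have hndF : ∀ h, ∀ p : ℕ, p.Prime → p ∣ A h → ¬ p ∣ A h * m + B h := by
      intro h p hp hpA hd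
      have h1 : p ∣ B h := (Nat.dvd_add_right (hpA.mul_right m)).1 hd
      exact hp.one_lt.ne' (Nat.dvd_one.1 ((hcop h) ▸ Nat.dvd_gcd hpA h1))
    have hdiv : ∀ h, (cf h * (n0 + E * m) + 1).divisors.card =
        (e h + 1) * 2 ^ (A h * m + B h).primeFactors.card := by
      intro h
      rw [hval h]
      exact card_div_form (hrp h) (hsq h) (hndF h _ (hrp h) (hrA h))
    have hsmallp : ∀ p : ℕ, p.Prime → p ≤ T → ∀ h, ¬ p ∣ cf h * (n0 + E * m) + 1 := by
      intro p hp hpT h hd
      obtain ⟨h1, h2⟩ := hnE p hp hpT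
      have h3 : p ∣ n0 + E * m := dvd_add h1 (h2.mul_right m)
      exact hp.one_lt.ne' (Nat.dvd_one.1 ((Nat.dvd_add_right (h3.mul_left (cf h))).1 hd))
    have hcopr : ∀ q : ℕ, 0 < q → q ≤ T → ∀ h, Nat.Coprime q (cf h * (n0 + E * m) + 1) := by
      intro q hq hqT h
      rw [Nat.coprime_iff_gcd_eq_one]
      by_contra hg
      obtain ⟨p, hp, hpg⟩ := Nat.exists_prime_and_dvd hg
      have h1 : p ∣ q := hpg.trans (Nat.gcd_dvd_left _ _)
      have h2 : p ∣ cf h * (n0 + E * m) + 1 := hpg.trans (Nat.gcd_dvd_right _ _)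
      exact hsmallp p hp ((Nat.le_of_dvd hq h1).trans hqT) h h2
    have hqz0 : 0 < z j / g i j := by rw [hqq i j]; exact Nat.succ_pos _
    have hqzT : z j / g i j ≤ T := (Nat.div_le_self _ _).trans (hcT (Sum.inr j)).le
    have hqx0 : 0 < x i / g i j := Nat.div_pos (Nat.le_of_dvd (hxpos i) (hgx i j)) (hgpos i j)
    have hqxT : x i / g i j ≤ T := (Nat.div_le_self _ _).trans (hcT (Sum.inl i)).le
    have hc1 := hcopr _ hqz0 hqzT (Sum.inl i)
    have hc2 := hcopr _ hqx0 hqxT (Sum.inr j)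
    have hd1 := hdiv (Sum.inl i)
    have hd2 := hdiv (Sum.inr j)
    have he1 : e (Sum.inl i) + 1 = a * X i := by
      have h1 : 1 ≤ a * X i := Nat.mul_le_mul ha (hX i)
      simp only [he, Sum.elim_inl]
      omega
    have he2 : e (Sum.inr j) + 1 = b * Z j * 2 ^ R := by
      have h1 : 1 ≤ b * Z j * 2 ^ R := Nat.mul_le_mul (Nat.mul_le_mul hb (hZ j)) Nat.one_le_two_pow
      simp only [he, Sum.elim_inr]
      omega
    have hD1 : (6 * ν i j m + 1).divisors.card = (z j / g i j).divisors.card *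
        ((a * X i) * 2 ^ (A (Sum.inl i) * m + B (Sum.inl i)).primeFactors.card) := by
      rw [hU1, ← he1, ← hd1]
      exact Nat.Coprime.card_divisors_mul hc1
    have hD2 : (6 * ν i j m - 1).divisors.card = (x i / g i j).divisors.card *
        ((b * Z j * 2 ^ R) * 2 ^ (A (Sum.inr j) * m + B (Sum.inr j)).primeFactors.card) := by
      rw [hU2, ← he2, ← hd2]
      exact Nat.Coprime.card_divisors_mul hc2
    have hesum : ∀ h, e h + 1 ≤ ∑ h, (e h + 1) := fun h =>
      single_le_sum (f := fun h => e h + 1) (fun _ _ => Nat.zero_le _) (mem_univ h)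
    refine ⟨?_, ?_, ?_, ?_, ?_⟩
    · -- no small primes
      intro p hp hpQ
      have hpT : p ≤ T := by omega
      obtain ⟨h1, h2⟩ := hsm p hp (by omega)
      rw [hU1, hU2]
      constructor
      · intro hd
        rcases (Nat.Prime.dvd_mul hp).1 hd with h3 | h3
        · exact h2 j (h3.trans (Nat.div_dvd_of_dvd (hgz i j)))
        · exact hsmallp p hp hpT (Sum.inl i) h3
      · intro hd
        rcases (Nat.Prime.dvd_mul hp).1 hd with h3 | h3
        · exact h1 i (h3.trans (Nat.div_dvd_of_dvd (hgx i j)))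
        · exact hsmallp p hp hpT (Sum.inr j) h3
    · -- not a square
      rintro ⟨w, hw⟩
      rw [hU1] at hw
      set F := A (Sum.inl i) * m + B (Sum.inl i) with hF
      have hF1 : F ≠ 1 := by
        have h1 := Nat.mul_le_mul (hA1 (Sum.inl i)) hm
        have h2 := hB1 (Sum.inl i)
        omega
      obtain ⟨q, hq, hqF⟩ := Nat.exists_prime_and_dvd hF1
      have hxn : x i * (n0 + E * m) + 1 = r (Sum.inl i) ^ e (Sum.inl i) * F := hval (Sum.inl i)
      have hqU : q ∣ w * w := by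
        rw [← hw, hxn]
        exact Dvd.dvd.mul_left (hqF.mul_left _) _
      have hqw : q ∣ w := by
        rcases (Nat.Prime.dvd_mul hq).1 hqU with h | h <;> exact h
      have hq2 : q * q ∣ (z j / g i j * r (Sum.inl i) ^ e (Sum.inl i)) * F := by
        have h1 : q * q ∣ w * w := mul_dvd_mul hqw hqw
        rw [← hw, hxn, ← mul_assoc] at h1
        exact h1
      have hqr : ¬ q ∣ z j / g i j * r (Sum.inl i) ^ e (Sum.inl i) := by
        intro hd
        rcases (Nat.Prime.dvd_mul hq).1 hd with h | h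
        · have h1 : q ∣ x i * (n0 + E * m) + 1 := by
            rw [hxn]
            exact hqF.mul_left _
          exact hq.one_lt.ne' (Nat.dvd_one.1 (hc1 ▸ Nat.dvd_gcd h h1))
        · have h1 := (Nat.prime_dvd_prime_iff_eq hq (hrp _)).1 (hq.dvd_of_dvd_pow h)
          rw [h1] at hqF
          exact hndF _ _ (hrp _) (hrA _) hqF
      have hqq2 : q * q ∣ F := by
        have h1 : Nat.Coprime (q * q) (z j / g i j * r (Sum.inl i) ^ e (Sum.inl i)) := by
          have h2 : Nat.Coprime q (z j / g i j * r (Sum.inl i) ^ e (Sum.inl i)) :=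
            (Nat.Prime.coprime_iff_not_dvd hq).2 hqr
          exact Nat.Coprime.mul_left h2 h2
        exact h1.dvd_of_dvd_mul_left hq2
      have h3 := hsq (Sum.inl i) q hqq2
      exact hq.one_lt.ne' (Nat.isUnit_iff.1 h3)
    · rw [hD1]
      have h1 : (z j / g i j).divisors.card ≤ T := (Nat.card_divisors_le_self _).trans hqzT
      have h2 : a * X i ≤ ∑ h, (e h + 1) := by rw [← he1]; exact hesum _
      have h3 : 2 ^ (A (Sum.inl i) * m + B (Sum.inl i)).primeFactors.card ≤ 2 ^ R :=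
        Nat.pow_le_pow_right (by norm_num) hiR
      calc _ ≤ T * ((∑ h, (e h + 1)) * 2 ^ R) := Nat.mul_le_mul h1 (Nat.mul_le_mul h2 h3)
        _ = _ := by ring
    · rw [hD2]
      have h1 : (x i / g i j).divisors.card ≤ T := (Nat.card_divisors_le_self _).trans hqxT
      have h2 : b * Z j * 2 ^ R ≤ ∑ h, (e h + 1) := by rw [← he2]; exact hesum _
      have h3 : 2 ^ (A (Sum.inr j) * m + B (Sum.inr j)).primeFactors.card ≤ 2 ^ R :=
        Nat.pow_le_pow_right (by norm_num) hjR
      calc _ ≤ T * ((∑ h, (e h + 1)) * 2 ^ R) := Nat.mul_le_mul h1 (Nat.mul_le_mul h2 h3)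
        _ = _ := by ring
    · rw [hD1, hD2]
      have h1 := hid i j
      rw [prod_sigma_pow] at h1
      have h2 : 2 ^ c i j * 2 ^ (A (Sum.inl i) * m + B (Sum.inl i)).primeFactors.card =
          2 ^ R * 2 ^ (A (Sum.inr j) * m + B (Sum.inr j)).primeFactors.card := by
        rw [← pow_add, ← pow_add, hij]
      calc b * ((z j / g i j).divisors.card *
            ((a * X i) * 2 ^ (A (Sum.inl i) * m + B (Sum.inl i)).primeFactors.card))
          = a * b * ((z j / g i j).divisors.card * X i) *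
            2 ^ (A (Sum.inl i) * m + B (Sum.inl i)).primeFactors.card := by ring
        _ = a * b * ((x i / g i j).divisors.card * Z j) * (2 ^ c i j *
            2 ^ (A (Sum.inl i) * m + B (Sum.inl i)).primeFactors.card) := by rw [h1]; ring
        _ = _ := by rw [h2]; ring

end Pool.Agent.Y887.TD
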